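import Mathlib

/-!
Embedding of a graph of maximum degree at most `d` into a `d`-regular graph: copies of `G` indexed
by points and lines over `ZMod q`, deficient vertices are joined along incidences.
The new graph is an induced supergraph, codegrees stay small and the local expansion of pairs
`(T, U)` of full degree is kept.
-/

namespace Pool.Agent.Work.MP_db9399_as.helper6.EMB

open Finset

set_option linter.unusedSectionVars false

variable {V : Type*} [Fintype V] [DecidableEq V] (G : SimpleGraph V) [DecidableRel G.Adj]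

/-- index of a copy: `true` = point, `false` = line. -/
abbrev Cp (q : ℕ) := Bool × (ZMod q × ZMod q)

/-- incidence of the point `p = (x, y)` and the line `l = (m, b)`, restricted to `m - x < s`. -/
def inc {q : ℕ} (s : ℕ) (p l : ZMod q × ZMod q) : Prop :=
  p.2 = l.1 * p.1 + l.2 ∧ (l.1 - p.1).val < s

instance {q : ℕ} (s : ℕ) (p l : ZMod q × ZMod q) : Decidable (inc s p l) := by
  unfold inc; infer_instance

/-- incidence between copies. -/
def cinc {q : ℕ} (s : ℕ) (c c' : Cp q) : Prop :=
  (c.1 = true ∧ c'.1 = false ∧ inc s c.2 c'.2) ∨ (c.1 = false ∧ c'.1 = true ∧ inc s c'.2 c.2)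

instance {q : ℕ} (s : ℕ) (c c' : Cp q) : Decidable (cinc s c c') := by
  unfold cinc; infer_instance

theorem cinc_symm {q : ℕ} {s : ℕ} {c c' : Cp q} (h : cinc s c c') : cinc s c' c := by
  rcases h with ⟨h1, h2, h3⟩ | ⟨h1, h2, h3⟩
  · exact Or.inr ⟨h2, h1, h3⟩
  · exact Or.inl ⟨h2, h1, h3⟩

theorem cinc_ne {q : ℕ} {s : ℕ} {c c' : Cp q} (h : cinc s c c') : c ≠ c' := by
  rintro rfl
  rcases h with ⟨h1, h2, _⟩ | ⟨h1, h2, _⟩
  · rw [h1] at h2; exact Bool.noConfusion h2
  · rw [h1] at h2; exact Bool.noConfusion h2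

/-- the extended graph. -/
def ext (d q : ℕ) : SimpleGraph (V × Cp q) where
  Adj a b := (a.2 = b.2 ∧ G.Adj a.1 b.1) ∨ (a.1 = b.1 ∧ cinc (d - G.degree a.1) a.2 b.2)
  symm := ⟨by
    rintro a b (⟨h1, h2⟩ | ⟨h1, h2⟩)
    · exact Or.inl ⟨h1.symm, h2.symm⟩
    · refine Or.inr ⟨h1.symm, ?_⟩
      rw [← h1]
      exact cinc_symm h2⟩
  loopless := ⟨by
    rintro a (⟨_, h2⟩ | ⟨_, h2⟩)
    · exact G.loopless.irrefl _ h2
    · exact cinc_ne h2 rfl⟩

instance (d q : ℕ) : DecidableRel (ext G d q).Adj := fun a b => by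
  unfold ext; infer_instance

variable {q : ℕ} [hq : Fact q.Prime]

/-- the points of a line / the lines through a point. -/
theorem card_cinc (s : ℕ) (hs : s ≤ q) (c : Cp q) :
    (univ.filter fun c' => cinc s c c').card = s := by
  have : NeZero q := ⟨hq.out.ne_zero⟩
  have hcard : (univ.filter fun t : ZMod q => t.val < s).card = s := by
    have h1 : (univ.filter fun t : ZMod q => t.val < s).card = (range s).card := by
      apply Finset.card_bij (fun t _ => t.val)
      · intro t ht
        rw [mem_filter] at ht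
        exact mem_range.mpr ht.2
      · intro t _ t' _ h
        exact ZMod.val_injective q h
      · intro n hn
        have hn' := mem_range.mp hn
        refine ⟨(n : ZMod q), ?_, ?_⟩
        · rw [mem_filter]
          exact ⟨mem_univ _, by rw [ZMod.val_natCast_of_lt (by omega)]; exact hn'⟩
        · exact ZMod.val_natCast_of_lt (by omega)
    rw [h1, card_range]
  refine Eq.trans ?_ hcard
  rcases c with ⟨b, p⟩
  cases b
  · -- a line
    symm
    apply Finset.card_bij (fun t _ => ((true, (p.1 - t, p.1 * (p.1 - t) + p.2)) : Cp q))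
    · intro t ht
      rw [mem_filter] at ht ⊢
      refine ⟨mem_univ _, Or.inr ⟨rfl, rfl, rfl, ?_⟩⟩
      have : p.1 - (p.1 - t) = t := by ring
      change (p.1 - (p.1 - t)).val < s
      rw [this]
      exact ht.2
    · intro t _ t' _ h
      have h1 := congrArg (fun c : Cp q => c.2.1) h
      have h2 : p.1 - t = p.1 - t' := h1
      exact sub_right_injective h2
    · intro c' hc'
      rw [mem_filter] at hc'
      rcases hc'.2 with ⟨h1, _, _⟩ | ⟨_, h2, h3⟩
      · exact Bool.noConfusion h1
      · refine ⟨p.1 - c'.2.1, ?_, ?_⟩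
        · rw [mem_filter]
          exact ⟨mem_univ _, h3.2⟩
        · have h4 : c'.2.2 = p.1 * c'.2.1 + p.2 := h3.1
          have h5 : p.1 - (p.1 - c'.2.1) = c'.2.1 := by ring
          ext
          · exact h2.symm
          · exact h5
          · change p.1 * (p.1 - (p.1 - c'.2.1)) + p.2 = c'.2.2
            rw [h5, h4]
  · -- a point
    symm
    apply Finset.card_bij (fun t _ => ((false, (p.1 + t, p.2 - (p.1 + t) * p.1)) : Cp q))
    · intro t ht
      rw [mem_filter] at ht ⊢
      refine ⟨mem_univ _, Or.inl ⟨rfl, rfl, ?_, ?_⟩⟩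
      · change p.2 = (p.1 + t) * p.1 + (p.2 - (p.1 + t) * p.1)
        ring
      · have : p.1 + t - p.1 = t := by ring
        change (p.1 + t - p.1).val < s
        rw [this]
        exact ht.2
    · intro t _ t' _ h
      have h1 := congrArg (fun c : Cp q => c.2.1) h
      have h2 : p.1 + t = p.1 + t' := h1
      exact add_left_cancel h2
    · intro c' hc'
      rw [mem_filter] at hc'
      rcases hc'.2 with ⟨_, h2, h3⟩ | ⟨h1, _, _⟩
      · refine ⟨c'.2.1 - p.1, ?_, ?_⟩
        · rw [mem_filter]
          exact ⟨mem_univ _, h3.2⟩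
        · have h4 : p.2 = c'.2.1 * p.1 + c'.2.2 := h3.1
          have h5 : p.1 + (c'.2.1 - p.1) = c'.2.1 := by ring
          ext
          · exact h2.symm
          · exact h5
          · change p.2 - (p.1 + (c'.2.1 - p.1)) * p.1 = c'.2.2
            rw [h5, h4]
            ring
      · exact Bool.noConfusion h1

/-- two copies have at most one common incident copy. -/
theorem cinc_unique (s s' : ℕ) (c c' e e' : Cp q) (h1 : cinc s c e) (h2 : cinc s' c' e)
    (h3 : cinc s c e') (h4 : cinc s' c' e') : c = c' ∨ e = e' := by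
  have : NeZero q := ⟨hq.out.ne_zero⟩
  by_contra hcon
  rw [not_or] at hcon
  obtain ⟨hne, hne'⟩ := hcon
  have key : ∀ p p' l l' : ZMod q × ZMod q, p.2 = l.1 * p.1 + l.2 → p'.2 = l.1 * p'.1 + l.2 →
      p.2 = l'.1 * p.1 + l'.2 → p'.2 = l'.1 * p'.1 + l'.2 → p = p' ∨ l = l' := by
    intro p p' l l' a1 a2 a3 a4
    have e1 : (l.1 - l'.1) * (p.1 - p'.1) = 0 := by
      have : (l.1 * p.1 + l.2) - (l.1 * p'.1 + l.2) = (l'.1 * p.1 + l'.2) - (l'.1 * p'.1 + l'.2) := by
        rw [← a1, ← a2, ← a3, ← a4]
      linear_combination this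
    rcases mul_eq_zero.mp e1 with h | h
    · right
      have h5 : l.1 = l'.1 := sub_eq_zero.mp h
      have h6 : l.2 = l'.2 := by
        have : l.1 * p.1 + l.2 = l'.1 * p.1 + l'.2 := by rw [← a1, ← a3]
        rw [h5] at this
        exact add_left_cancel this
      exact Prod.ext h5 h6
    · left
      have h5 : p.1 = p'.1 := sub_eq_zero.mp h
      exact Prod.ext h5 (by rw [a1, a2, h5])
  rcases h1 with ⟨b1, b2, b3⟩ | ⟨b1, b2, b3⟩
  · have hc' : c'.1 = true := by
      rcases h2 with ⟨x, _, _⟩ | ⟨_, x, _⟩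
      · exact x
      · rw [b2] at x; exact Bool.noConfusion x
    have he' : e'.1 = false := by
      rcases h3 with ⟨_, x, _⟩ | ⟨x, _, _⟩
      · exact x
      · rw [b1] at x; exact Bool.noConfusion x
    have i2 : inc s' c'.2 e.2 := by
      rcases h2 with ⟨_, _, x⟩ | ⟨x, _, _⟩
      · exact x
      · rw [hc'] at x; exact Bool.noConfusion x
    have i3 : inc s c.2 e'.2 := by
      rcases h3 with ⟨_, _, x⟩ | ⟨x, _, _⟩
      · exact x
      · rw [b1] at x; exact Bool.noConfusion x
    have i4 : inc s' c'.2 e'.2 := by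
      rcases h4 with ⟨_, _, x⟩ | ⟨x, _, _⟩
      · exact x
      · rw [hc'] at x; exact Bool.noConfusion x
    rcases key c.2 c'.2 e.2 e'.2 b3.1 i2.1 i3.1 i4.1 with h | h
    · exact hne (Prod.ext (b1.trans hc'.symm) h)
    · exact hne' (Prod.ext (b2.trans he'.symm) h)
  · have hc' : c'.1 = false := by
      rcases h2 with ⟨_, x, _⟩ | ⟨x, _, _⟩
      · rw [b2] at x; exact Bool.noConfusion x
      · exact x
    have he' : e'.1 = true := by
      rcases h3 with ⟨x, _, _⟩ | ⟨_, x, _⟩
      · rw [b1] at x; exact Bool.noConfusion x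
      · exact x
    have i2 : inc s' e.2 c'.2 := by
      rcases h2 with ⟨x, _, _⟩ | ⟨_, _, x⟩
      · rw [hc'] at x; exact Bool.noConfusion x
      · exact x
    have i3 : inc s e'.2 c.2 := by
      rcases h3 with ⟨x, _, _⟩ | ⟨_, _, x⟩
      · rw [b1] at x; exact Bool.noConfusion x
      · exact x
    have i4 : inc s' e'.2 c'.2 := by
      rcases h4 with ⟨x, _, _⟩ | ⟨_, _, x⟩
      · rw [hc'] at x; exact Bool.noConfusion x
      · exact x
    rcases key e.2 e'.2 c.2 c'.2 b3.1 i3.1 i2.1 i4.1 with h | h
    · exact hne' (Prod.ext (b2.trans he'.symm) h)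
    · exact hne (Prod.ext (b1.trans hc'.symm) h)

/-- neighbourhoods in the extended graph. -/
theorem nbr_ext (d : ℕ) (a : V × Cp q) :
    (ext G d q).neighborFinset a
      = ((G.neighborFinset a.1).image fun w => (w, a.2))
        ∪ ((univ.filter fun c' => cinc (d - G.degree a.1) a.2 c').image fun c' => (a.1, c')) := by
  ext b
  simp only [SimpleGraph.mem_neighborFinset, mem_union, mem_image, mem_filter, mem_univ, true_and]
  constructor
  · rintro (⟨h1, h2⟩ | ⟨h1, h2⟩)
    · exact Or.inl ⟨b.1, h2, by rw [h1]⟩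
    · exact Or.inr ⟨b.2, h2, by rw [h1]⟩
  · rintro (⟨w, h1, rfl⟩ | ⟨c', h1, rfl⟩)
    · exact Or.inl ⟨rfl, h1⟩
    · exact Or.inr ⟨rfl, h1⟩

/-- the extended graph is regular. -/
theorem ext_regular (d : ℕ) (hd : ∀ v, G.degree v ≤ d) (hdq : d ≤ q) :
    (ext G d q).IsRegularOfDegree d := by
  intro a
  rw [← SimpleGraph.card_neighborFinset_eq_degree, nbr_ext, card_union_of_disjoint,
    card_image_of_injective, card_image_of_injective, G.card_neighborFinset_eq_degree,
    card_cinc _ (by omega)]
  · have := hd a.1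
    omega
  · intro c c' h
    exact congrArg Prod.snd h
  · intro w w' h
    exact congrArg Prod.fst h
  · rw [disjoint_left]
    intro b hb hb'
    rw [mem_image] at hb hb'
    obtain ⟨w, hw, rfl⟩ := hb
    obtain ⟨c', hc', h⟩ := hb'
    rw [mem_filter] at hc'
    have h1 : a.2 = c' := (congrArg Prod.snd h).symm
    exact cinc_ne hc'.2 h1

/-- the embedding of the copy `c`. -/
def emb (c : Cp q) : V ↪ V × Cp q := ⟨fun v => (v, c), fun _ _ h => congrArg Prod.fst h⟩

theorem ext_induced (d : ℕ) (c : Cp q) (v w : V) :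
    (ext G d q).Adj (emb c v) (emb c w) ↔ G.Adj v w := by
  constructor
  · rintro (⟨_, h2⟩ | ⟨_, h2⟩)
    · exact h2
    · exact absurd rfl (cinc_ne h2)
  · intro h
    exact Or.inl ⟨rfl, h⟩

/-- codegrees. -/
theorem ext_codeg (d K : ℕ) (hK : 2 ≤ K)
    (hG : ∀ v w, v ≠ w → (G.neighborFinset v ∩ G.neighborFinset w).card ≤ K)
    (a b : V × Cp q) (hab : a ≠ b) :
    ((ext G d q).neighborFinset a ∩ (ext G d q).neighborFinset b).card ≤ K := by
  obtain ⟨v, c⟩ := a
  obtain ⟨w, e⟩ := b
  by_cases hce : c = e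
  · subst hce
    have hvw : v ≠ w := fun h => hab (by rw [h])
    refine le_trans (card_le_card_of_injOn (fun x => x.1) ?_ ?_) (hG v w hvw)
    · intro x hx
      rw [mem_coe, mem_inter, SimpleGraph.mem_neighborFinset, SimpleGraph.mem_neighborFinset] at hx
      rw [mem_coe, mem_inter, SimpleGraph.mem_neighborFinset, SimpleGraph.mem_neighborFinset]
      obtain ⟨h1, h2⟩ := hx
      rcases h1 with ⟨h1, h1'⟩ | ⟨h1, h1'⟩
      · rcases h2 with ⟨h2, h2'⟩ | ⟨h2, h2'⟩
        · exact ⟨h1', h2'⟩
        · exact absurd (by simpa using h1) (cinc_ne h2')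
      · rcases h2 with ⟨h2, h2'⟩ | ⟨h2, h2'⟩
        · exact absurd (by simpa using h2) (cinc_ne h1')
        · exact absurd (by
            have h3 : v = x.1 := h1
            have h4 : w = x.1 := h2
            rw [h3, h4]) hvw
    · intro x hx y hy hxy
      rw [mem_coe, mem_inter, SimpleGraph.mem_neighborFinset, SimpleGraph.mem_neighborFinset] at hx hy
      have hx2 : x.2 = c := by
        obtain ⟨h1, h2⟩ := hx
        rcases h1 with ⟨h1, _⟩ | ⟨h1, h1'⟩
        · exact h1.symm
        · rcases h2 with ⟨h2, _⟩ | ⟨h2, _⟩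
          · exact h2.symm
          · exact absurd (by
              have h3 : v = x.1 := h1
              have h4 : w = x.1 := h2
              rw [h3, h4]) hvw
      have hy2 : y.2 = c := by
        obtain ⟨h1, h2⟩ := hy
        rcases h1 with ⟨h1, _⟩ | ⟨h1, h1'⟩
        · exact h1.symm
        · rcases h2 with ⟨h2, _⟩ | ⟨h2, _⟩
          · exact h2.symm
          · exact absurd (by
              have h3 : v = y.1 := h1
              have h4 : w = y.1 := h2
              rw [h3, h4]) hvw
      exact Prod.ext hxy (hx2.trans hy2.symm)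
  · by_cases hvw : v = w
    · subst hvw
      refine le_trans ?_ (le_trans one_le_two hK)
      rw [card_le_one]
      intro x hx y hy
      rw [mem_inter, SimpleGraph.mem_neighborFinset, SimpleGraph.mem_neighborFinset] at hx hy
      have hx' : x.1 = v ∧ cinc (d - G.degree v) c x.2 ∧ cinc (d - G.degree v) e x.2 := by
        obtain ⟨h1, h2⟩ := hx
        rcases h1 with ⟨h1, h1'⟩ | ⟨h1, h1'⟩
        · rcases h2 with ⟨h2, _⟩ | ⟨h2, _⟩
          · exact absurd (h1.trans h2.symm) hce
          · have h3 : v = x.1 := h2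
            have h4 : G.Adj v x.1 := h1'
            rw [← h3] at h4
            exact absurd h4 (G.loopless.irrefl _)
        · rcases h2 with ⟨h2, h2'⟩ | ⟨h2, h2'⟩
          · have h3 : v = x.1 := h1
            have h4 : G.Adj v x.1 := h2'
            rw [← h3] at h4
            exact absurd h4 (G.loopless.irrefl _)
          · exact ⟨h1.symm, h1', h2'⟩
      have hy' : y.1 = v ∧ cinc (d - G.degree v) c y.2 ∧ cinc (d - G.degree v) e y.2 := by
        obtain ⟨h1, h2⟩ := hy
        rcases h1 with ⟨h1, h1'⟩ | ⟨h1, h1'⟩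
        · rcases h2 with ⟨h2, _⟩ | ⟨h2, _⟩
          · exact absurd (h1.trans h2.symm) hce
          · have h3 : v = y.1 := h2
            have h4 : G.Adj v y.1 := h1'
            rw [← h3] at h4
            exact absurd h4 (G.loopless.irrefl _)
        · rcases h2 with ⟨h2, h2'⟩ | ⟨h2, h2'⟩
          · have h3 : v = y.1 := h1
            have h4 : G.Adj v y.1 := h2'
            rw [← h3] at h4
            exact absurd h4 (G.loopless.irrefl _)
          · exact ⟨h1.symm, h1', h2'⟩
      rcases cinc_unique _ _ c e x.2 y.2 hx'.2.1 hx'.2.2 hy'.2.1 hy'.2.2 with h | h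
      · exact absurd h hce
      · exact Prod.ext (hx'.1.trans hy'.1.symm) h
    · -- at most two mixed common neighbours
      refine le_trans (card_le_card (t := {(w, c), (v, e)}) ?_) (le_trans (card_le_two) hK)
      intro x hx
      rw [mem_inter, SimpleGraph.mem_neighborFinset, SimpleGraph.mem_neighborFinset] at hx
      rw [mem_insert, mem_singleton]
      obtain ⟨h1, h2⟩ := hx
      rcases h1 with ⟨h1, h1'⟩ | ⟨h1, h1'⟩
      · rcases h2 with ⟨h2, _⟩ | ⟨h2, _⟩
        · exact absurd (h1.trans h2.symm) hce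
        · left
          exact Prod.ext h2.symm h1.symm
      · rcases h2 with ⟨h2, h2'⟩ | ⟨h2, h2'⟩
        · right
          exact Prod.ext h1.symm h2.symm
        · exact absurd (by
            have h3 : v = x.1 := h1
            have h4 : w = x.1 := h2
            rw [h3, h4]) hvw

end Pool.Agent.Work.MP_db9399_as.helper6.EMB
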