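import Pool.Agent.Work.MP_db9399_as_helper6.EMB

/-!
Local expansion of pairs in the extended graph: if every pair `(T, U)` of `G`, all degrees on `T`
at least `(1 - g) d`, `|T| ≤ M d`, `|U| ≤ (1 + g) |T|`, has at least `g d |T|` edges from `T` to the
complement of `U`, then every pair of the extended graph with `|T| ≤ M d`,
`|U| ≤ (1 + g²/64) |T|` has at least `(g²/64) d |T|` such edges.
-/

namespace Pool.Agent.Work.MP_db9399_as.helper6.EMB

open Finset

set_option linter.unusedSectionVars false

variable {V : Type*} [Fintype V] [DecidableEq V] (G : SimpleGraph V) [DecidableRel G.Adj]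

/-- edges from `T` to the complement of `U`. -/
def out {X : Type*} [Fintype X] [DecidableEq X] (H : SimpleGraph X) [DecidableRel H.Adj]
    (T U : Finset X) : ℝ := ∑ a ∈ T, ((H.neighborFinset a \ U).card : ℝ)

variable {q : ℕ} [hq : Fact q.Prime]

/-- incident copies of `a` inside `U`. -/
def incU (d : ℕ) (U : Finset (V × Cp q)) (a : V × Cp q) : Finset (V × Cp q) :=
  U.filter fun b => a.1 = b.1 ∧ cinc (d - G.degree a.1) a.2 b.2

theorem card_nbr_sdiff (d : ℕ) (hdq : d ≤ q) (U : Finset (V × Cp q)) (a : V × Cp q) :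
    (((ext G d q).neighborFinset a \ U).card : ℝ)
      = ((G.neighborFinset a.1 \ univ.filter fun w => (w, a.2) ∈ U).card : ℝ)
        + (((d - G.degree a.1 : ℕ) : ℝ) - ((incU G d U a).card : ℝ)) := by
  classical
  have h1 : (ext G d q).neighborFinset a \ U
      = ((G.neighborFinset a.1 \ univ.filter fun w => (w, a.2) ∈ U).image fun w => (w, a.2))
        ∪ (((univ.filter fun c' => cinc (d - G.degree a.1) a.2 c').image fun c' => (a.1, c')) \ U) := by
    rw [nbr_ext]
    ext b
    simp only [mem_sdiff, mem_union, mem_image, mem_filter, mem_univ, true_and]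
    constructor
    · rintro ⟨⟨w, hw, rfl⟩ | ⟨c', hc', rfl⟩, hb⟩
      · exact Or.inl ⟨w, ⟨hw, hb⟩, rfl⟩
      · exact Or.inr ⟨⟨c', hc', rfl⟩, hb⟩
    · rintro (⟨w, ⟨hw, hb⟩, rfl⟩ | ⟨⟨c', hc', rfl⟩, hb⟩)
      · exact ⟨Or.inl ⟨w, hw, rfl⟩, hb⟩
      · exact ⟨Or.inr ⟨c', hc', rfl⟩, hb⟩
  have hdisj : Disjoint
      ((G.neighborFinset a.1 \ univ.filter fun w => (w, a.2) ∈ U).image fun w => (w, a.2))
      (((univ.filter fun c' => cinc (d - G.degree a.1) a.2 c').image fun c' => (a.1, c')) \ U) := by
    rw [disjoint_left]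
    intro b hb hb'
    rw [mem_image] at hb
    rw [mem_sdiff, mem_image] at hb'
    obtain ⟨w, hw, rfl⟩ := hb
    obtain ⟨⟨c', hc', h⟩, _⟩ := hb'
    rw [mem_filter] at hc'
    have h2 : a.2 = c' := (congrArg Prod.snd h).symm
    exact cinc_ne hc'.2 h2
  have h3 : ((((univ.filter fun c' => cinc (d - G.degree a.1) a.2 c').image
      fun c' => (a.1, c')) \ U).card : ℝ)
      = ((d - G.degree a.1 : ℕ) : ℝ) - ((incU G d U a).card : ℝ) := by
    have h4 : (((univ.filter fun c' => cinc (d - G.degree a.1) a.2 c').image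
        fun c' => ((a.1, c') : V × Cp q)) \ U).card + (incU G d U a).card
        = ((univ.filter fun c' => cinc (d - G.degree a.1) a.2 c').image
        fun c' => ((a.1, c') : V × Cp q)).card := by
      have h5 : incU G d U a = ((univ.filter fun c' => cinc (d - G.degree a.1) a.2 c').image
        fun c' => ((a.1, c') : V × Cp q)) ∩ U := by
        ext b
        simp only [incU, mem_filter, mem_inter, mem_image, mem_univ, true_and]
        constructor
        · rintro ⟨h6, h7, h8⟩
          exact ⟨⟨b.2, h8, by rw [h7]⟩, h6⟩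
        · rintro ⟨⟨c', h6, rfl⟩, h7⟩
          exact ⟨h7, rfl, h6⟩
      rw [h5]
      exact card_sdiff_add_card_inter _ _
    rw [card_image_of_injective _ (fun c c' h => congrArg Prod.snd h), card_cinc _ (by omega)] at h4
    have h6 : ((((univ.filter fun c' => cinc (d - G.degree a.1) a.2 c').image
      fun c' => ((a.1, c') : V × Cp q)) \ U).card : ℝ) + ((incU G d U a).card : ℝ)
        = ((d - G.degree a.1 : ℕ) : ℝ) := by exact_mod_cast h4
    linarith
  rw [h1, card_union_of_disjoint hdisj]
  push_cast
  rw [h3, card_image_of_injective _ (fun w w' h => congrArg Prod.fst h)]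

/-- incidences between `T` and `U` (no `K_{2,2}`). -/
theorem inc_bound (d : ℕ) (T U : Finset (V × Cp q)) :
    ∑ a ∈ T, ((incU G d U a).card : ℝ) ≤ U.card + Real.sqrt U.card * T.card := by
  classical
  set I := ∑ a ∈ T, ((incU G d U a).card : ℝ) with hI
  set n : V × Cp q → ℕ := fun b =>
    (T.filter fun a => a.1 = b.1 ∧ cinc (d - G.degree a.1) a.2 b.2).card with hn
  have hI2 : I = ∑ b ∈ U, (n b : ℝ) := by
    rw [hI]
    simp only [incU, hn, Finset.card_filter]
    push_cast
    rw [Finset.sum_comm]
  have hI0 : 0 ≤ I := Finset.sum_nonneg fun _ _ => by positivity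
  -- pairs
  have hpairs : ∑ b ∈ U, ((n b : ℝ) ^ 2) ≤ I + (T.card : ℝ) ^ 2 := by
    have h1 : ∑ b ∈ U, (n b) ^ 2 ≤ ∑ b ∈ U, n b + T.card ^ 2 := by
      have h2 : ∀ b, (n b) ^ 2 = ∑ a ∈ T, ∑ a' ∈ T,
          if (a.1 = b.1 ∧ cinc (d - G.degree a.1) a.2 b.2)
            ∧ (a'.1 = b.1 ∧ cinc (d - G.degree a'.1) a'.2 b.2) then 1 else 0 := by
        intro b
        rw [sq, hn]
        simp only [Finset.card_filter]
        rw [Finset.sum_mul_sum]
        refine Finset.sum_congr rfl fun a _ => Finset.sum_congr rfl fun a' _ => ?_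
        split_ifs <;> simp_all
      simp_rw [h2]
      rw [Finset.sum_comm]
      have h3 : ∀ a ∈ T, ∑ b ∈ U, ∑ a' ∈ T,
          (if (a.1 = b.1 ∧ cinc (d - G.degree a.1) a.2 b.2)
            ∧ (a'.1 = b.1 ∧ cinc (d - G.degree a'.1) a'.2 b.2) then 1 else 0)
          ≤ (incU G d U a).card + T.card := by
        intro a ha
        rw [Finset.sum_comm, ← Finset.add_sum_erase T _ ha]
        have h4 : ∑ b ∈ U, (if (a.1 = b.1 ∧ cinc (d - G.degree a.1) a.2 b.2)
            ∧ (a.1 = b.1 ∧ cinc (d - G.degree a.1) a.2 b.2) then 1 else 0)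
            = (incU G d U a).card := by
          rw [incU, Finset.card_filter]
          refine Finset.sum_congr rfl fun b _ => ?_
          by_cases h : a.1 = b.1 ∧ cinc (d - G.degree a.1) a.2 b.2
          · rw [if_pos ⟨h, h⟩, if_pos h]
          · rw [if_neg (fun h' => h h'.1), if_neg h]
        have h5 : ∑ a' ∈ T.erase a, ∑ b ∈ U, (if (a.1 = b.1 ∧ cinc (d - G.degree a.1) a.2 b.2)
            ∧ (a'.1 = b.1 ∧ cinc (d - G.degree a'.1) a'.2 b.2) then 1 else 0) ≤ T.card := by
          calc ∑ a' ∈ T.erase a, ∑ b ∈ U, (if (a.1 = b.1 ∧ cinc (d - G.degree a.1) a.2 b.2)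
            ∧ (a'.1 = b.1 ∧ cinc (d - G.degree a'.1) a'.2 b.2) then 1 else 0)
              ≤ ∑ _a' ∈ T.erase a, 1 := by
                refine Finset.sum_le_sum fun a' ha' => ?_
                rw [← Finset.card_filter, card_le_one]
                intro b hb b' hb'
                rw [mem_filter] at hb hb'
                obtain ⟨_, ⟨p1, p2⟩, ⟨p3, p4⟩⟩ := hb
                obtain ⟨_, ⟨p1', p2'⟩, ⟨p3', p4'⟩⟩ := hb'
                have h6 : b.1 = b'.1 := p1.symm.trans p1'
                rcases cinc_unique _ _ a.2 a'.2 b.2 b'.2 p2 p4 p2' p4' with h | h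
                · exact absurd (Prod.ext (p3.trans p1.symm) h.symm) (ne_of_mem_erase ha')
                · exact Prod.ext h6 h
            _ ≤ T.card := by
                rw [Finset.sum_const, smul_eq_mul, mul_one]
                exact card_le_card (erase_subset _ _)
        rw [h4]
        exact Nat.add_le_add_left h5 _
      refine le_trans (Finset.sum_le_sum h3) ?_
      rw [Finset.sum_add_distrib, Finset.sum_const, smul_eq_mul, ← sq]
      apply Nat.add_le_add_right
      simp only [incU, hn, Finset.card_filter]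
      rw [Finset.sum_comm]
    rw [hI2]
    exact_mod_cast h1
  have hcs : I ^ 2 ≤ (U.card : ℝ) * ∑ b ∈ U, ((n b : ℝ) ^ 2) := by
    rw [hI2]
    exact sq_sum_le_card_mul_sum_sq
  have hmain : I ^ 2 ≤ (U.card : ℝ) * (I + (T.card : ℝ) ^ 2) :=
    le_trans hcs (by gcongr)
  have hs := Real.sq_sqrt (Nat.cast_nonneg (α := ℝ) U.card)
  have hs0 := Real.sqrt_nonneg (U.card : ℝ)
  by_contra hcon
  have hgt : (U.card : ℝ) + Real.sqrt U.card * T.card < I := not_le.mp hcon
  have hU0 : (0 : ℝ) ≤ U.card := by positivity
  have hT0 : (0 : ℝ) ≤ T.card := by positivity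
  have h1 : I * (I - U.card) ≤ (U.card : ℝ) * (T.card : ℝ) ^ 2 := by nlinarith
  have h2 : Real.sqrt U.card * T.card < I - U.card := by linarith
  have h3 : 0 ≤ Real.sqrt U.card * T.card := by positivity
  have h4 : (Real.sqrt U.card * T.card) ^ 2 < (I - U.card) ^ 2 := by
    apply pow_lt_pow_left₀ h2 h3 (by norm_num)
  have h5 : (I - U.card) ^ 2 ≤ I * (I - U.card) := by
    have : 0 ≤ I - U.card := by linarith
    nlinarith
  have h6 : (Real.sqrt U.card * T.card) ^ 2 = (U.card : ℝ) * (T.card : ℝ) ^ 2 := by
    rw [mul_pow, hs]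
  linarith

/-- local expansion is kept. -/
theorem ext_exp (d : ℕ) (hd : ∀ v, G.degree v ≤ d) (hdq : d ≤ q) (g M : ℝ) (hg : 0 < g)
    (hg1 : g ≤ 1) (hbig : 2 + Real.sqrt (2 * (M * d)) ≤ 3 * g ^ 2 / 64 * d)
    (hG : ∀ T U : Finset V, (∀ v ∈ T, (1 - g) * d ≤ (G.degree v : ℝ)) → (T.card : ℝ) ≤ M * d →
      (U.card : ℝ) ≤ (1 + g) * T.card → g * d * T.card ≤ out G T U)
    (T U : Finset (V × Cp q)) (hT : (T.card : ℝ) ≤ M * d)
    (hU : (U.card : ℝ) ≤ (1 + g ^ 2 / 64) * T.card) :
    g ^ 2 / 64 * d * T.card ≤ out (ext G d q) T U := by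
  classical
  have hd0 : (0 : ℝ) ≤ d := by positivity
  have hT0 : (0 : ℝ) ≤ T.card := by positivity
  set low := T.filter fun a => g / 2 * d ≤ ((d - G.degree a.1 : ℕ) : ℝ) with hlow
  have hincle : ∀ a, ((incU G d U a).card : ℝ) ≤ ((d - G.degree a.1 : ℕ) : ℝ) := by
    intro a
    have h1 := card_cinc (q := q) (d - G.degree a.1) (by omega) a.2
    have h2 : (incU G d U a).card ≤ d - G.degree a.1 := by
      rw [← h1]
      refine card_le_card_of_injOn (fun b => b.2) ?_ ?_
      · intro b hb
        rw [mem_coe, incU, mem_filter] at hb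
        rw [mem_coe, mem_filter]
        exact ⟨mem_univ _, hb.2.2⟩
      · intro b hb b' hb' h
        rw [mem_coe, incU, mem_filter] at hb hb'
        exact Prod.ext (hb.2.1.symm.trans hb'.2.1) h
    exact_mod_cast h2
  by_cases hcase : g / 8 * T.card ≤ (low.card : ℝ)
  · -- many deficient vertices
    have h1 : (g / 2 * d) * low.card - ∑ a ∈ T, ((incU G d U a).card : ℝ)
        ≤ out (ext G d q) T U := by
      unfold out
      have h2 : ∀ a ∈ T, (if a ∈ low then g / 2 * (d : ℝ) else 0) - ((incU G d U a).card : ℝ)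
          ≤ (((ext G d q).neighborFinset a \ U).card : ℝ) := by
        intro a ha
        rw [card_nbr_sdiff G d hdq]
        have h3 : (0 : ℝ) ≤ ((G.neighborFinset a.1 \ univ.filter fun w => (w, a.2) ∈ U).card : ℝ) := by
          positivity
        by_cases hl : a ∈ low
        · rw [if_pos hl]
          rw [hlow, mem_filter] at hl
          linarith [hl.2]
        · rw [if_neg hl]
          have : (0 : ℝ) ≤ ((d - G.degree a.1 : ℕ) : ℝ) := by positivity
          linarith
      calc (g / 2 * d) * low.card - ∑ a ∈ T, ((incU G d U a).card : ℝ)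
          = ∑ a ∈ T, ((if a ∈ low then g / 2 * (d : ℝ) else 0) - ((incU G d U a).card : ℝ)) := by
            rw [Finset.sum_sub_distrib]
            congr 1
            rw [← Finset.sum_filter, Finset.sum_const, nsmul_eq_mul, mul_comm]
            congr 2
            congr 1
            ext a
            simp only [hlow, mem_filter]
            tauto
        _ ≤ _ := Finset.sum_le_sum h2
    have h2 := inc_bound G d T U
    have hU2 : (U.card : ℝ) ≤ 2 * T.card := by
      refine le_trans hU ?_
      have : g ^ 2 ≤ 1 := by nlinarith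
      nlinarith
    have h3 : Real.sqrt U.card ≤ Real.sqrt (2 * (M * d)) :=
      Real.sqrt_le_sqrt (by linarith)
    have h4 : (U.card : ℝ) + Real.sqrt U.card * T.card ≤ (2 + Real.sqrt (2 * (M * d))) * T.card := by
      have : Real.sqrt U.card * T.card ≤ Real.sqrt (2 * (M * d)) * T.card := by gcongr
      linarith
    have h5 : (2 + Real.sqrt (2 * (M * d))) * T.card ≤ 3 * g ^ 2 / 64 * d * T.card := by gcongr
    have h6 : (g / 2 * d) * (g / 8 * T.card) ≤ (g / 2 * d) * low.card := by gcongr
    have h7 : (g / 2 * d) * (g / 8 * T.card) = g ^ 2 / 16 * d * T.card := by ring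
    have h8 : g ^ 2 / 64 * d * T.card + 3 * g ^ 2 / 64 * d * T.card = g ^ 2 / 16 * d * T.card := by
      ring
    linarith
  · -- few deficient vertices: copy by copy
    have hcase' := not_le.mp hcase
    set Tc : Cp q → Finset V := fun c => univ.filter fun v => (v, c) ∈ T ∧ (v, c) ∉ low with hTc
    set Uc : Cp q → Finset V := fun c => univ.filter fun v => (v, c) ∈ U with hUc
    have hsumU : ∑ c, ((Uc c).card : ℝ) = U.card := by
      have h1 : ∑ c, (Uc c).card = U.card := by
        rw [Finset.card_eq_sum_card_fiberwise (f := fun a : V × Cp q => a.2) (t := univ)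
          (fun _ _ => mem_coe.mpr (mem_univ _))]
        refine Finset.sum_congr rfl fun c _ => ?_
        refine Finset.card_bij (fun v _ => (v, c)) ?_ ?_ ?_
        · intro v hv
          simp only [hUc, mem_filter, mem_univ, true_and] at hv
          exact mem_filter.mpr ⟨hv, rfl⟩
        · intro v _ v' _ h
          exact congrArg Prod.fst h
        · intro a ha
          rw [mem_filter] at ha
          refine ⟨a.1, ?_, ?_⟩
          · simp only [hUc, mem_filter, mem_univ, true_and]
            rw [← ha.2]
            exact ha.1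
          · rw [← ha.2]
      exact_mod_cast h1
    have hsumT : ∑ c, ((Tc c).card : ℝ) = (T.card : ℝ) - low.card := by
      have h1 : ∑ c, (Tc c).card = (T \ low).card := by
        rw [Finset.card_eq_sum_card_fiberwise (s := T \ low) (f := fun a : V × Cp q => a.2)
          (t := univ) (fun _ _ => mem_coe.mpr (mem_univ _))]
        refine Finset.sum_congr rfl fun c _ => ?_
        refine Finset.card_bij (fun v _ => (v, c)) ?_ ?_ ?_
        · intro v hv
          simp only [hTc, mem_filter, mem_univ, true_and] at hv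
          exact mem_filter.mpr ⟨mem_sdiff.mpr hv, rfl⟩
        · intro v _ v' _ h
          exact congrArg Prod.fst h
        · intro a ha
          rw [mem_filter, mem_sdiff] at ha
          refine ⟨a.1, ?_, ?_⟩
          · simp only [hTc, mem_filter, mem_univ, true_and]
            rw [← ha.2]
            exact ha.1
          · rw [← ha.2]
      have h2 : (T \ low).card + low.card = T.card :=
        card_sdiff_add_card_eq_card (filter_subset _ _)
      have h3 : ((T \ low).card : ℝ) + low.card = T.card := by exact_mod_cast h2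
      have h4 : ∑ c, ((Tc c).card : ℝ) = ((T \ low).card : ℝ) := by exact_mod_cast h1
      linarith
    have hcopy : ∀ c, g * d * ((Tc c).card - (Uc c).card / (1 + g)) ≤ out G (Tc c) (Uc c) := by
      intro c
      have h1g : 0 < 1 + g := by linarith
      by_cases hgood : ((Uc c).card : ℝ) ≤ (1 + g) * (Tc c).card
      · have h1 : ((Tc c).card : ℝ) ≤ M * d := by
          refine le_trans ?_ hT
          have : (Tc c).card ≤ T.card := by
            refine card_le_card_of_injOn (fun v => (v, c)) ?_ ?_
            · intro v hv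
              rw [mem_coe] at hv ⊢
              simp only [hTc, mem_filter, mem_univ, true_and] at hv
              exact hv.1
            · intro v _ v' _ h
              exact congrArg Prod.fst h
          exact_mod_cast this
        have h2 := hG (Tc c) (Uc c) (by
          intro v hv
          simp only [hTc, mem_filter, mem_univ, true_and] at hv
          have h3 : ¬ (g / 2 * d ≤ ((d - G.degree v : ℕ) : ℝ)) := by
            intro h
            exact hv.2 (by rw [hlow]; exact mem_filter.mpr ⟨hv.1, h⟩)
          have h4 : ((d - G.degree v : ℕ) : ℝ) = (d : ℝ) - G.degree v := by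
            rw [Nat.cast_sub (hd v)]
          rw [h4] at h3
          nlinarith [not_le.mp h3]) h1 hgood
        refine le_trans ?_ h2
        have h3 : 0 ≤ ((Uc c).card : ℝ) / (1 + g) := by positivity
        have h4 : 0 ≤ g * (d : ℝ) := by positivity
        nlinarith
      · have h1 := not_le.mp hgood
        have h2 : (Tc c).card - ((Uc c).card : ℝ) / (1 + g) ≤ 0 := by
          rw [sub_nonpos, le_div_iff₀ h1g]
          linarith
        have h3 : 0 ≤ out G (Tc c) (Uc c) := Finset.sum_nonneg fun _ _ => by positivity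
        have h4 : 0 ≤ g * (d : ℝ) := by positivity
        nlinarith
    have hout : ∑ c, out G (Tc c) (Uc c) ≤ out (ext G d q) T U := by
      unfold out
      have h1 : ∑ c, ∑ v ∈ Tc c, ((G.neighborFinset v \ Uc c).card : ℝ)
          = ∑ a ∈ T \ low, ((G.neighborFinset a.1 \ Uc a.2).card : ℝ) := by
        rw [← Finset.sum_fiberwise_of_maps_to (s := T \ low) (t := univ)
          (g := fun a : V × Cp q => a.2) (fun _ _ => mem_univ _)]
        refine Finset.sum_congr rfl fun c _ => ?_
        refine Finset.sum_bij (fun v _ => (v, c)) ?_ ?_ ?_ ?_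
        · intro v hv
          simp only [hTc, mem_filter, mem_univ, true_and] at hv
          exact mem_filter.mpr ⟨mem_sdiff.mpr hv, rfl⟩
        · intro v _ v' _ h
          exact congrArg Prod.fst h
        · intro a ha
          rw [mem_filter, mem_sdiff] at ha
          refine ⟨a.1, ?_, ?_⟩
          · simp only [hTc, mem_filter, mem_univ, true_and]
            rw [← ha.2]
            exact ha.1
          · rw [← ha.2]
        · intro v _
          rfl
      rw [h1]
      refine le_trans (Finset.sum_le_sum (g := fun a => (((ext G d q).neighborFinset a \ U).card : ℝ))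
        fun a _ => ?_) (Finset.sum_le_sum_of_subset_of_nonneg sdiff_subset fun _ _ _ => by positivity)
      rw [card_nbr_sdiff G d hdq]
      have := hincle a
      simp only [hUc]
      linarith
    have h1g : 0 < 1 + g := by linarith
    have hsum : ∑ c, g * d * (((Tc c).card : ℝ) - (Uc c).card / (1 + g))
        = g * d * (((T.card : ℝ) - low.card) - U.card / (1 + g)) := by
      rw [← Finset.mul_sum, Finset.sum_sub_distrib, hsumT, ← Finset.sum_div, hsumU]
    have hfin := Finset.sum_le_sum fun c (_ : c ∈ (univ : Finset (Cp q))) => hcopy c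
    rw [hsum] at hfin
    refine le_trans ?_ (le_trans hfin hout)
    have hUd : (U.card : ℝ) / (1 + g) ≤ (1 + g ^ 2 / 64) / (1 + g) * T.card := by
      rw [div_mul_eq_mul_div]
      gcongr
    have hq2 : (1 + g ^ 2 / 64) / (1 + g) ≤ 1 - g / 4 := by
      rw [div_le_iff₀ h1g]
      nlinarith
    have h2 : (U.card : ℝ) / (1 + g) ≤ (1 - g / 4) * T.card :=
      le_trans hUd (by gcongr)
    have h3 : g / 8 * T.card ≤ ((T.card : ℝ) - low.card) - U.card / (1 + g) := by nlinarith
    calc g ^ 2 / 64 * d * T.card ≤ g * d * (g / 8 * T.card) := by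
          have : 0 ≤ g ^ 2 * d * T.card := by positivity
          nlinarith
      _ ≤ g * d * (((T.card : ℝ) - low.card) - U.card / (1 + g)) := by gcongr

end Pool.Agent.Work.MP_db9399_as.helper6.EMB
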