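import Pool.Agent.Work.MP_db9399_as_helper6.SPEC

/-!
Heat kernel lemma (local Cheeger / Nash): a symmetric substochastic kernel `q` with
`q(T, Tᶜ) ≥ c |T|` for all sets of at most `N` vertices satisfies
`⟨f, (1 - q) f⟩ ≥ (c² / 4) |f|²` for `f ≥ 0`, `∑ f ≤ 1`, `4 / |f|² ≤ N`.
-/

namespace Pool.Agent.Work.MP_db9399_as.helper6

open Finset

set_option linter.unusedSectionVars false

variable {V : Type*} [Fintype V] [DecidableEq V]

/-- layer cake on the support, by induction on its size. -/
theorem layer (q : V → V → ℝ) (hq0 : ∀ u w, 0 ≤ q u w) (N : ℕ) (c : ℝ)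
    (hexp : ∀ T : Finset V, T.card ≤ N → c * T.card ≤ ∑ u ∈ T, ∑ w ∈ univ \ T, q u w) :
    ∀ (n : ℕ) (g : V → ℝ), (∀ u, 0 ≤ g u) → (univ.filter fun u => 0 < g u).card = n → n ≤ N →
      c * ∑ u, g u ≤ ∑ u, ∑ w, q u w * max (g u - g w) 0 := by
  intro n
  induction n using Nat.strong_induction_on with
  | _ n ih =>
    intro g hg hn hnN
    set T := univ.filter fun u => 0 < g u with hT
    have hout : ∀ u, u ∉ T → g u = 0 := by
      intro u hu
      have : ¬ 0 < g u := by simpa [hT] using hu
      exact le_antisymm (not_lt.mp this) (hg u)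
    rcases T.eq_empty_or_nonempty with hTe | hTn
    · have hz : ∀ u, g u = 0 := fun u => hout u (by rw [hTe]; exact Finset.notMem_empty u)
      simp [hz]
    · obtain ⟨u0, hu0, hmin⟩ := T.exists_min_image g hTn
      set m := g u0 with hm
      have hm0 : 0 < m := by
        have := hu0
        rw [hT, mem_filter] at this
        exact this.2
      set g' : V → ℝ := fun u => if u ∈ T then g u - m else 0 with hg'
      have hg'0 : ∀ u, 0 ≤ g' u := by
        intro u
        simp only [hg']
        split_ifs with h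
        · exact sub_nonneg.mpr (hmin u h)
        · exact le_rfl
      have hsub : (univ.filter fun u => 0 < g' u) ⊆ T.erase u0 := by
        intro u hu
        rw [mem_filter] at hu
        have hu' := hu.2
        simp only [hg'] at hu'
        split_ifs at hu' with h
        · refine mem_erase.mpr ⟨?_, h⟩
          rintro rfl
          simp [hm] at hu'
        · exact absurd hu' (lt_irrefl _)
      have hlt : (univ.filter fun u => 0 < g' u).card < n := by
        rw [← hn]
        exact lt_of_le_of_lt (card_le_card hsub) (card_erase_lt_of_mem hu0)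
      have hind := ih _ hlt g' hg'0 rfl (le_trans hlt.le hnN)
      have hsum : ∑ u, g u = m * T.card + ∑ u, g' u := by
        have h1 : ∀ u, g u = (if u ∈ T then m else 0) + g' u := by
          intro u
          simp only [hg']
          split_ifs with h
          · ring
          · rw [hout u h]; ring
        calc ∑ u, g u = ∑ u, ((if u ∈ T then m else 0) + g' u) := Finset.sum_congr rfl fun u _ => h1 u
          _ = ∑ u, (if u ∈ T then m else 0) + ∑ u, g' u := Finset.sum_add_distrib
          _ = m * T.card + ∑ u, g' u := by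
            congr 1
            rw [Finset.sum_ite_mem, univ_inter, Finset.sum_const, nsmul_eq_mul, mul_comm]
      have hpt : ∀ u w, max (g u - g w) 0
          = (if u ∈ T ∧ w ∉ T then m else 0) + max (g' u - g' w) 0 := by
        intro u w
        by_cases hu : u ∈ T <;> by_cases hw : w ∈ T
        · simp [hg', hu, hw]
        · have h1 : g w = 0 := hout w hw
          have h2 : m ≤ g u := hmin u hu
          simp only [hg', hu, hw, if_true, if_false, not_false_eq_true, and_self, h1, sub_zero]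
          rw [max_eq_left (by linarith), max_eq_left (by linarith)]
          ring
        · have h1 : g u = 0 := hout u hu
          have h2 : m ≤ g w := hmin w hw
          simp only [hg', hu, hw, if_true, if_false, h1, false_and, zero_sub, zero_add]
          rw [max_eq_right (by linarith), max_eq_right (by linarith)]
        · have h1 : g u = 0 := hout u hu
          have h2 : g w = 0 := hout w hw
          simp [hg', hu, hw, h1, h2]
      have hR : ∑ u, ∑ w, q u w * max (g u - g w) 0
          = m * (∑ u ∈ T, ∑ w ∈ univ \ T, q u w) + ∑ u, ∑ w, q u w * max (g' u - g' w) 0 := by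
        have h1 : ∀ u, ∑ w, q u w * max (g u - g w) 0
            = ∑ w, (if u ∈ T ∧ w ∉ T then m * q u w else 0) + ∑ w, q u w * max (g' u - g' w) 0 := by
          intro u
          rw [← Finset.sum_add_distrib]
          refine Finset.sum_congr rfl fun w _ => ?_
          rw [hpt u w, mul_add]
          congr 1
          split_ifs <;> ring
        calc ∑ u, ∑ w, q u w * max (g u - g w) 0
            = ∑ u, (∑ w, (if u ∈ T ∧ w ∉ T then m * q u w else 0)
              + ∑ w, q u w * max (g' u - g' w) 0) := Finset.sum_congr rfl fun u _ => h1 u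
          _ = ∑ u, ∑ w, (if u ∈ T ∧ w ∉ T then m * q u w else 0)
              + ∑ u, ∑ w, q u w * max (g' u - g' w) 0 := Finset.sum_add_distrib
          _ = m * (∑ u ∈ T, ∑ w ∈ univ \ T, q u w) + ∑ u, ∑ w, q u w * max (g' u - g' w) 0 := by
            congr 1
            have h2 : ∀ u, ∑ w, (if u ∈ T ∧ w ∉ T then m * q u w else 0)
                = if u ∈ T then m * ∑ w ∈ univ \ T, q u w else 0 := by
              intro u
              by_cases hu : u ∈ T
              · simp only [hu, true_and, if_true]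
                rw [← Finset.sum_filter, Finset.mul_sum]
                apply Finset.sum_congr _ fun _ _ => rfl
                ext w
                simp
              · simp [hu]
            simp_rw [h2]
            rw [Finset.sum_ite_mem, univ_inter, Finset.mul_sum]
      rw [hsum, hR]
      have hT' := hexp T (by rw [hn]; exact hnN)
      calc c * (m * T.card + ∑ u, g' u) = m * (c * T.card) + c * ∑ u, g' u := by ring
        _ ≤ m * (∑ u ∈ T, ∑ w ∈ univ \ T, q u w) + ∑ u, ∑ w, q u w * max (g' u - g' w) 0 := by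
          gcongr

/-- Cheeger's inequality for functions with small support. -/
theorem cheeger (q : V → V → ℝ) (hq0 : ∀ u w, 0 ≤ q u w) (hqs : ∀ u w, q u w = q w u)
    (hq1 : ∀ u, ∑ w, q u w ≤ 1) (N : ℕ) (c : ℝ) (hc : 0 ≤ c)
    (hexp : ∀ T : Finset V, T.card ≤ N → c * T.card ≤ ∑ u ∈ T, ∑ w ∈ univ \ T, q u w)
    (h : V → ℝ) (hh : ∀ u, 0 ≤ h u) (hsupp : (univ.filter fun u => 0 < h u).card ≤ N) :
    c ^ 2 * nsq h ≤ ∑ u, ∑ w, q u w * (h u - h w) ^ 2 := by
  have hsupp' : (univ.filter fun u => 0 < h u ^ 2).card ≤ N := by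
    refine le_trans (card_le_card ?_) hsupp
    intro u hu
    rw [mem_filter] at hu ⊢
    refine ⟨hu.1, lt_of_le_of_ne (hh u) fun h0 => ?_⟩
    have := hu.2
    rw [← h0] at this
    norm_num at this
  have h1 := layer q hq0 N c hexp _ (fun u => h u ^ 2) (fun u => sq_nonneg _) rfl hsupp'
  -- symmetrise
  set E := ∑ u, ∑ w, q u w * (h u - h w) ^ 2 with hE
  have hE0 : 0 ≤ E := Finset.sum_nonneg fun u _ => Finset.sum_nonneg fun w _ =>
    mul_nonneg (hq0 u w) (sq_nonneg _)
  have hn0 : 0 ≤ nsq h := nsq_nonneg h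
  have h2 : 2 * ∑ u, ∑ w, q u w * max (h u ^ 2 - h w ^ 2) 0
      = ∑ u, ∑ w, q u w * |h u ^ 2 - h w ^ 2| := by
    have h3 : ∑ u, ∑ w, q u w * max (h u ^ 2 - h w ^ 2) 0
        = ∑ u, ∑ w, q u w * max (h w ^ 2 - h u ^ 2) 0 := by
      rw [Finset.sum_comm]
      refine Finset.sum_congr rfl fun u _ => Finset.sum_congr rfl fun w _ => ?_
      rw [hqs w u]
    rw [two_mul]
    nth_rewrite 2 [h3]
    rw [← Finset.sum_add_distrib]
    refine Finset.sum_congr rfl fun u _ => ?_
    rw [← Finset.sum_add_distrib]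
    refine Finset.sum_congr rfl fun w _ => ?_
    rw [← mul_add]
    congr 1
    rcases le_total (h u ^ 2) (h w ^ 2) with hle | hle
    · rw [max_eq_right (by linarith), max_eq_left (by linarith), abs_of_nonpos (by linarith)]
      ring
    · rw [max_eq_left (by linarith), max_eq_right (by linarith), abs_of_nonneg (by linarith)]
      ring
  -- Cauchy-Schwarz
  have h4 : (∑ u, ∑ w, q u w * |h u ^ 2 - h w ^ 2|) ^ 2
      ≤ E * (∑ u, ∑ w, q u w * (h u + h w) ^ 2) := by
    have hcs := Finset.sum_mul_sq_le_sq_mul_sq (univ : Finset (V × V))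
      (fun p => Real.sqrt (q p.1 p.2) * |h p.1 - h p.2|)
      (fun p => Real.sqrt (q p.1 p.2) * (h p.1 + h p.2))
    have e1 : ∑ p : V × V, (Real.sqrt (q p.1 p.2) * |h p.1 - h p.2|)
        * (Real.sqrt (q p.1 p.2) * (h p.1 + h p.2)) = ∑ u, ∑ w, q u w * |h u ^ 2 - h w ^ 2| := by
      rw [← Finset.univ_product_univ, Finset.sum_product]
      refine Finset.sum_congr rfl fun u _ => Finset.sum_congr rfl fun w _ => ?_
      have hs := Real.mul_self_sqrt (hq0 u w)
      have hab : |h u ^ 2 - h w ^ 2| = |h u - h w| * (h u + h w) := by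
        rw [show h u ^ 2 - h w ^ 2 = (h u - h w) * (h u + h w) by ring, abs_mul,
          abs_of_nonneg (add_nonneg (hh u) (hh w))]
      rw [hab]
      calc Real.sqrt (q u w) * |h u - h w| * (Real.sqrt (q u w) * (h u + h w))
          = (Real.sqrt (q u w) * Real.sqrt (q u w)) * (|h u - h w| * (h u + h w)) := by ring
        _ = q u w * (|h u - h w| * (h u + h w)) := by rw [hs]
    have e2 : ∑ p : V × V, (Real.sqrt (q p.1 p.2) * |h p.1 - h p.2|) ^ 2 = E := by
      rw [← Finset.univ_product_univ, Finset.sum_product, hE]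
      refine Finset.sum_congr rfl fun u _ => Finset.sum_congr rfl fun w _ => ?_
      rw [mul_pow, Real.sq_sqrt (hq0 u w), sq_abs]
    have e3 : ∑ p : V × V, (Real.sqrt (q p.1 p.2) * (h p.1 + h p.2)) ^ 2
        = ∑ u, ∑ w, q u w * (h u + h w) ^ 2 := by
      rw [← Finset.univ_product_univ, Finset.sum_product]
      refine Finset.sum_congr rfl fun u _ => Finset.sum_congr rfl fun w _ => ?_
      rw [mul_pow, Real.sq_sqrt (hq0 u w)]
    rw [e1, e2, e3] at hcs
    exact hcs
  have h5 : ∑ u, ∑ w, q u w * (h u + h w) ^ 2 ≤ 4 * nsq h := by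
    have h6 : ∑ u, ∑ w, q u w * (h u + h w) ^ 2
        ≤ ∑ u, ∑ w, (2 * (q u w * h u ^ 2) + 2 * (q u w * h w ^ 2)) := by
      refine Finset.sum_le_sum fun u _ => Finset.sum_le_sum fun w _ => ?_
      nlinarith [mul_nonneg (hq0 u w) (sq_nonneg (h u - h w))]
    refine le_trans h6 ?_
    have h7 : ∑ u, ∑ w, q u w * h u ^ 2 ≤ nsq h := by
      unfold nsq
      refine Finset.sum_le_sum fun u _ => ?_
      rw [← Finset.sum_mul]
      calc (∑ w, q u w) * h u ^ 2 ≤ 1 * h u ^ 2 := by gcongr; exact hq1 u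
        _ = h u ^ 2 := one_mul _
    have h8 : ∑ u, ∑ w, q u w * h w ^ 2 = ∑ u, ∑ w, q u w * h u ^ 2 := by
      rw [Finset.sum_comm]
      refine Finset.sum_congr rfl fun u _ => Finset.sum_congr rfl fun w _ => ?_
      rw [hqs w u]
    have h9 : ∑ u, ∑ w, (2 * (q u w * h u ^ 2) + 2 * (q u w * h w ^ 2))
        = 2 * ∑ u, ∑ w, q u w * h u ^ 2 + 2 * ∑ u, ∑ w, q u w * h w ^ 2 := by
      simp only [Finset.sum_add_distrib, Finset.mul_sum]
    rw [h9, h8]
    linarith
  -- conclusion
  have h10 : (2 * c * nsq h) ^ 2 ≤ E * (4 * nsq h) := by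
    have h11 : 2 * c * nsq h ≤ ∑ u, ∑ w, q u w * |h u ^ 2 - h w ^ 2| := by
      rw [← h2]
      have : c * nsq h ≤ ∑ u, ∑ w, q u w * max (h u ^ 2 - h w ^ 2) 0 := h1
      linarith
    calc (2 * c * nsq h) ^ 2 ≤ (∑ u, ∑ w, q u w * |h u ^ 2 - h w ^ 2|) ^ 2 := by
          apply pow_le_pow_left₀ (by positivity) h11
      _ ≤ E * (∑ u, ∑ w, q u w * (h u + h w) ^ 2) := h4
      _ ≤ E * (4 * nsq h) := by gcongr
  rcases hn0.eq_or_lt with h0 | h0
  · rw [← h0, mul_zero]
    exact hE0
  · have h12 : 4 * nsq h * (c ^ 2 * nsq h) ≤ 4 * nsq h * E := by nlinarith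
    exact le_of_mul_le_mul_left h12 (by positivity)

/-- NASH STEP: for `f ≥ 0` with `∑ f ≤ 1` and `4 / |f|² ≤ N`. -/
theorem nash (q : V → V → ℝ) (hq0 : ∀ u w, 0 ≤ q u w) (hqs : ∀ u w, q u w = q w u)
    (hq1 : ∀ u, ∑ w, q u w ≤ 1) (N : ℕ) (c : ℝ) (hc : 0 ≤ c)
    (hexp : ∀ T : Finset V, T.card ≤ N → c * T.card ≤ ∑ u ∈ T, ∑ w ∈ univ \ T, q u w)
    (f : V → ℝ) (hf : ∀ u, 0 ≤ f u) (hf1 : ∑ u, f u ≤ 1) (hpos : 0 < nsq f)
    (hN : 4 / nsq f ≤ N) :
    ∑ u, f u * ∑ w, q u w * f w ≤ (1 - c ^ 2 / 4) * nsq f := by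
  set t := nsq f / 4 with ht
  have ht0 : 0 < t := by positivity
  set h : V → ℝ := fun u => max (f u - t) 0 with hh
  have hh0 : ∀ u, 0 ≤ h u := fun u => le_max_right _ _
  have hsupp : (univ.filter fun u => 0 < h u).card ≤ N := by
    have h1 : ((univ.filter fun u => 0 < h u).card : ℝ) * t ≤ 1 := by
      calc ((univ.filter fun u => 0 < h u).card : ℝ) * t
          = ∑ u ∈ univ.filter (fun u => 0 < h u), t := by rw [Finset.sum_const, nsmul_eq_mul]
        _ ≤ ∑ u ∈ univ.filter (fun u => 0 < h u), f u := by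
          refine Finset.sum_le_sum fun u hu => ?_
          rw [mem_filter] at hu
          have h2 := hu.2
          simp only [hh] at h2
          by_contra hcon
          rw [max_eq_right (by linarith)] at h2
          exact lt_irrefl _ h2
        _ ≤ ∑ u, f u := Finset.sum_le_sum_of_subset_of_nonneg (filter_subset _ _)
          fun u _ _ => hf u
        _ ≤ 1 := hf1
    have h2 : ((univ.filter fun u => 0 < h u).card : ℝ) ≤ N := by
      refine le_trans ?_ hN
      rw [le_div_iff₀ hpos]
      calc ((univ.filter fun u => 0 < h u).card : ℝ) * nsq f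
          = 4 * (((univ.filter fun u => 0 < h u).card : ℝ) * t) := by rw [ht]; ring
        _ ≤ 4 := by linarith
    exact_mod_cast h2
  have hch := cheeger q hq0 hqs hq1 N c hc hexp h hh0 hsupp
  have hlip : ∑ u, ∑ w, q u w * (h u - h w) ^ 2 ≤ ∑ u, ∑ w, q u w * (f u - f w) ^ 2 := by
    refine Finset.sum_le_sum fun u _ => Finset.sum_le_sum fun w _ => ?_
    refine mul_le_mul_of_nonneg_left ?_ (hq0 u w)
    have h1 : |h u - h w| ≤ |f u - f w| := by
      have := abs_max_sub_max_le_abs (f u - t) (f w - t) 0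
      simpa [hh] using this
    exact sq_le_sq.mpr h1
  have hnorm : nsq f / 2 ≤ nsq h := by
    have h1 : ∀ u, f u ^ 2 - 2 * t * f u ≤ h u ^ 2 := by
      intro u
      simp only [hh]
      rcases le_total (f u) t with hle | hle
      · rw [max_eq_right (by linarith)]
        nlinarith [hf u]
      · rw [max_eq_left (by linarith)]
        nlinarith
    have h2 : nsq f - 2 * t * ∑ u, f u ≤ nsq h := by
      unfold nsq
      calc ∑ u, f u ^ 2 - 2 * t * ∑ u, f u = ∑ u, (f u ^ 2 - 2 * t * f u) := by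
            rw [Finset.sum_sub_distrib, Finset.mul_sum]
        _ ≤ ∑ u, h u ^ 2 := Finset.sum_le_sum fun u _ => h1 u
    have h3 : 2 * t * ∑ u, f u ≤ 2 * t * 1 := by gcongr
    have h4 : 2 * t = nsq f / 2 := by rw [ht]; ring
    linarith
  -- expand the quadratic form
  have hexpand : ∑ u, ∑ w, q u w * (f u - f w) ^ 2
      ≤ 2 * nsq f - 2 * ∑ u, f u * ∑ w, q u w * f w := by
    have h1 : ∑ u, ∑ w, q u w * (f u - f w) ^ 2
        = ∑ u, ∑ w, q u w * f u ^ 2 + ∑ u, ∑ w, q u w * f w ^ 2
          - 2 * ∑ u, f u * ∑ w, q u w * f w := by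
      rw [Finset.mul_sum, ← Finset.sum_add_distrib, ← Finset.sum_sub_distrib]
      refine Finset.sum_congr rfl fun u _ => ?_
      rw [Finset.mul_sum, Finset.mul_sum, ← Finset.sum_add_distrib, ← Finset.sum_sub_distrib]
      refine Finset.sum_congr rfl fun w _ => ?_
      ring
    have h7 : ∑ u, ∑ w, q u w * f u ^ 2 ≤ nsq f := by
      unfold nsq
      refine Finset.sum_le_sum fun u _ => ?_
      rw [← Finset.sum_mul]
      calc (∑ w, q u w) * f u ^ 2 ≤ 1 * f u ^ 2 := by gcongr; exact hq1 u
        _ = f u ^ 2 := one_mul _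
    have h8 : ∑ u, ∑ w, q u w * f w ^ 2 = ∑ u, ∑ w, q u w * f u ^ 2 := by
      rw [Finset.sum_comm]
      refine Finset.sum_congr rfl fun u _ => Finset.sum_congr rfl fun w _ => ?_
      rw [hqs w u]
    rw [h1, h8]
    linarith
  have hc2 : 0 ≤ c ^ 2 := sq_nonneg c
  nlinarith [mul_le_mul_of_nonneg_left hnorm hc2]

end Pool.Agent.Work.MP_db9399_as.helper6
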