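import Pool.Agent.Work.MP_db9399_as_helper6.HK

/-!
Heat kernel bound for a graph with degrees at most `R` and the walk `(1/R) * adjacency`:
local expansion of pairs `(T, U)` gives `|W^j δ_v|² ≤ max s ((1 - c²/4)^(j-1) / R)`.
-/

namespace Pool.Agent.Work.MP_db9399_as.helper6

open Finset

set_option linter.unusedSectionVars false

variable {V : Type*} [Fintype V] [DecidableEq V] (G : SimpleGraph V) [DecidableRel G.Adj] (R : ℕ)

/-- the substochastic walk operator `W f u = (1/R) ∑_{w ∼ u} f w`. -/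
noncomputable def wk (f : V → ℝ) (u : V) : ℝ := (1 / (R : ℝ)) * ∑ w ∈ G.neighborFinset u, f w

/-- its square as a kernel. -/
noncomputable def qk (u w : V) : ℝ :=
  ((G.neighborFinset u ∩ G.neighborFinset w).card : ℝ) / (R : ℝ) ^ 2

theorem qk_nonneg (u w : V) : 0 ≤ qk G R u w := by
  unfold qk
  positivity

theorem qk_symm (u w : V) : qk G R u w = qk G R w u := by
  unfold qk
  rw [inter_comm]

/-- `∑_w |N(u) ∩ N(w)| f w = ∑_{y ∼ u} ∑_{w ∼ y} f w`. -/
theorem sum_codeg (u : V) (f : V → ℝ) :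
    ∑ w, ((G.neighborFinset u ∩ G.neighborFinset w).card : ℝ) * f w
      = ∑ y ∈ G.neighborFinset u, ∑ w ∈ G.neighborFinset y, f w := by
  have h1 : ∀ w, ((G.neighborFinset u ∩ G.neighborFinset w).card : ℝ) * f w
      = ∑ y ∈ G.neighborFinset u, if w ∈ G.neighborFinset y then f w else 0 := by
    intro w
    rw [← Finset.sum_filter, Finset.sum_const, nsmul_eq_mul]
    congr 2
    congr 1
    ext y
    simp [G.adj_comm]
  simp_rw [h1]
  rw [Finset.sum_comm]
  refine Finset.sum_congr rfl fun y _ => ?_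
  rw [Finset.sum_ite_mem, univ_inter]

theorem wk_wk (hR : 0 < R) (f : V → ℝ) (u : V) :
    wk G R (wk G R f) u = ∑ w, qk G R u w * f w := by
  have hR' : (0 : ℝ) < R := by exact_mod_cast hR
  unfold wk qk
  have h := sum_codeg G u f
  calc (1 / (R : ℝ)) * ∑ y ∈ G.neighborFinset u, (1 / (R : ℝ)) * ∑ w ∈ G.neighborFinset y, f w
      = (1 / (R : ℝ) ^ 2) * ∑ y ∈ G.neighborFinset u, ∑ w ∈ G.neighborFinset y, f w := by
        rw [← Finset.mul_sum]
        ring
    _ = (1 / (R : ℝ) ^ 2) * ∑ w, ((G.neighborFinset u ∩ G.neighborFinset w).card : ℝ) * f w := by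
        rw [h]
    _ = _ := by
        rw [Finset.mul_sum]
        refine Finset.sum_congr rfl fun w _ => ?_
        ring

theorem wk_adj (f g : V → ℝ) : ∑ u, f u * wk G R g u = ∑ u, wk G R f u * g u := by
  unfold wk
  have h1 : ∀ f g : V → ℝ, ∑ u, f u * ((1 / (R : ℝ)) * ∑ w ∈ G.neighborFinset u, g w)
      = (1 / (R : ℝ)) * ∑ u, ∑ w, if G.Adj u w then f u * g w else 0 := by
    intro f g
    rw [Finset.mul_sum]
    refine Finset.sum_congr rfl fun u _ => ?_
    have h2 : ∑ w ∈ G.neighborFinset u, g w = ∑ w, if G.Adj u w then g w else 0 := by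
      rw [← Finset.sum_filter]
      apply Finset.sum_congr _ fun _ _ => rfl
      ext w
      simp
    rw [h2, mul_left_comm, Finset.mul_sum]
    congr 1
    refine Finset.sum_congr rfl fun w _ => ?_
    split_ifs <;> ring
  have h3 : ∑ u, ((1 / (R : ℝ)) * ∑ w ∈ G.neighborFinset u, f w) * g u
      = ∑ u, g u * ((1 / (R : ℝ)) * ∑ w ∈ G.neighborFinset u, f w) :=
    Finset.sum_congr rfl fun u _ => mul_comm _ _
  rw [h3, h1 f g, h1 g f, Finset.sum_comm]
  congr 1
  refine Finset.sum_congr rfl fun u _ => Finset.sum_congr rfl fun w _ => ?_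
  by_cases h : G.Adj u w
  · rw [if_pos h, if_pos h.symm, mul_comm]
  · rw [if_neg h, if_neg (fun h' => h h'.symm)]

theorem wk_nonneg {f : V → ℝ} (hf : ∀ u, 0 ≤ f u) (u : V) : 0 ≤ wk G R f u :=
  mul_nonneg (by positivity) (Finset.sum_nonneg fun w _ => hf w)

theorem qk_row (hdeg : ∀ u, G.degree u ≤ R) (hR : 0 < R) (u : V) : ∑ w, qk G R u w ≤ 1 := by
  have hR' : (0 : ℝ) < R := by exact_mod_cast hR
  have h := sum_codeg G u (fun _ => (1 : ℝ))
  have h1 : ∑ w, qk G R u w = (1 / (R : ℝ) ^ 2)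
      * ∑ w, ((G.neighborFinset u ∩ G.neighborFinset w).card : ℝ) * 1 := by
    unfold qk
    rw [Finset.mul_sum]
    refine Finset.sum_congr rfl fun w _ => ?_
    ring
  rw [h1, h]
  have h2 : ∑ y ∈ G.neighborFinset u, ∑ w ∈ G.neighborFinset y, (1 : ℝ) ≤ (R : ℝ) * R := by
    calc ∑ y ∈ G.neighborFinset u, ∑ w ∈ G.neighborFinset y, (1 : ℝ)
        ≤ ∑ y ∈ G.neighborFinset u, (R : ℝ) := by
          refine Finset.sum_le_sum fun y _ => ?_
          rw [Finset.sum_const, G.card_neighborFinset_eq_degree, nsmul_eq_mul, mul_one]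
          exact_mod_cast hdeg y
      _ = (G.degree u : ℝ) * R := by
          rw [Finset.sum_const, G.card_neighborFinset_eq_degree, nsmul_eq_mul]
      _ ≤ (R : ℝ) * R := by
          gcongr
          exact_mod_cast hdeg u
  calc (1 / (R : ℝ) ^ 2) * ∑ y ∈ G.neighborFinset u, ∑ w ∈ G.neighborFinset y, (1 : ℝ)
      ≤ (1 / (R : ℝ) ^ 2) * ((R : ℝ) * R) := by gcongr
    _ = 1 := by field_simp

theorem sum_wk_le (hdeg : ∀ u, G.degree u ≤ R) (hR : 0 < R) {f : V → ℝ} (hf : ∀ u, 0 ≤ f u) :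
    ∑ u, wk G R f u ≤ ∑ u, f u := by
  have hR' : (0 : ℝ) < R := by exact_mod_cast hR
  have h1 := wk_adj G R (fun _ => (1 : ℝ)) f
  simp only [one_mul] at h1
  rw [h1]
  refine Finset.sum_le_sum fun u _ => ?_
  have h2 : wk G R (fun _ => (1 : ℝ)) u ≤ 1 := by
    unfold wk
    rw [Finset.sum_const, G.card_neighborFinset_eq_degree, nsmul_eq_mul, mul_one]
    rw [div_mul_eq_mul_div, one_mul, div_le_one hR']
    exact_mod_cast hdeg u
  calc wk G R (fun _ => (1 : ℝ)) u * f u ≤ 1 * f u := by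
        gcongr
        exact hf u
    _ = f u := one_mul _

theorem nsq_wk (hR : 0 < R) (f : V → ℝ) :
    nsq (wk G R f) = ∑ u, f u * ∑ w, qk G R u w * f w := by
  have h1 : nsq (wk G R f) = ∑ u, f u * wk G R (wk G R f) u := by
    rw [wk_adj]
    unfold nsq
    refine Finset.sum_congr rfl fun u _ => ?_
    ring
  rw [h1]
  refine Finset.sum_congr rfl fun u _ => ?_
  rw [wk_wk G R hR]

theorem nsq_wk_le (hdeg : ∀ u, G.degree u ≤ R) (hR : 0 < R) (f : V → ℝ) :
    nsq (wk G R f) ≤ nsq f := by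
  have hR' : (0 : ℝ) < R := by exact_mod_cast hR
  rw [nsq_wk G R hR]
  have h1 : ∑ u, f u * ∑ w, qk G R u w * f w
      ≤ ∑ u, ∑ w, (qk G R u w * f u ^ 2 / 2 + qk G R u w * f w ^ 2 / 2) := by
    refine Finset.sum_le_sum fun u _ => ?_
    rw [Finset.mul_sum]
    refine Finset.sum_le_sum fun w _ => ?_
    nlinarith [mul_nonneg (qk_nonneg G R u w) (sq_nonneg (f u - f w))]
  refine le_trans h1 ?_
  have h7 : ∑ u, ∑ w, qk G R u w * f u ^ 2 ≤ nsq f := by
    unfold nsq
    refine Finset.sum_le_sum fun u _ => ?_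
    rw [← Finset.sum_mul]
    calc (∑ w, qk G R u w) * f u ^ 2 ≤ 1 * f u ^ 2 := by gcongr; exact qk_row G R hdeg hR u
      _ = f u ^ 2 := one_mul _
  have h8 : ∑ u, ∑ w, qk G R u w * f w ^ 2 = ∑ u, ∑ w, qk G R u w * f u ^ 2 := by
    rw [Finset.sum_comm]
    refine Finset.sum_congr rfl fun u _ => Finset.sum_congr rfl fun w _ => ?_
    rw [qk_symm G R w u]
  have h9 : ∑ u, ∑ w, (qk G R u w * f u ^ 2 / 2 + qk G R u w * f w ^ 2 / 2)
      = (∑ u, ∑ w, qk G R u w * f u ^ 2) / 2 + (∑ u, ∑ w, qk G R u w * f w ^ 2) / 2 := by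
    simp only [Finset.sum_add_distrib, Finset.sum_div]
  rw [h9, h8]
  linarith

/-- the walk started at `v`. -/
noncomputable def hk (v : V) : ℕ → V → ℝ
  | 0 => Pi.single v 1
  | j + 1 => wk G R (hk v j)

theorem hk_nonneg (v : V) (j : ℕ) (u : V) : 0 ≤ hk G R v j u := by
  induction j generalizing u with
  | zero =>
    by_cases h : u = v
    · subst h; simp [hk]
    · simp [hk, h]
  | succ j ih => exact wk_nonneg G R ih u

theorem hk_sum (hdeg : ∀ u, G.degree u ≤ R) (hR : 0 < R) (v : V) (j : ℕ) :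
    ∑ u, hk G R v j u ≤ 1 := by
  induction j with
  | zero => simp [hk]
  | succ j ih => exact le_trans (sum_wk_le G R hdeg hR (hk_nonneg G R v j)) ih

theorem nsq_hk_one (hdeg : ∀ u, G.degree u ≤ R) (hR : 0 < R) (v : V) :
    nsq (hk G R v 1) ≤ 1 / (R : ℝ) := by
  have hR' : (0 : ℝ) < R := by exact_mod_cast hR
  have h1 : ∀ u, (hk G R v 1 u) ^ 2 = if G.Adj v u then (1 / (R : ℝ)) ^ 2 else 0 := by
    intro u
    change (wk G R (Pi.single v 1) u) ^ 2 = _
    unfold wk
    have h2 : ∑ w ∈ G.neighborFinset u, (Pi.single v (1 : ℝ) : V → ℝ) w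
        = if G.Adj v u then 1 else 0 := by
      rw [Finset.sum_congr rfl (fun w _ => Pi.single_apply v (1 : ℝ) w), Finset.sum_ite_eq']
      simp [G.adj_comm]
    rw [h2]
    split_ifs <;> simp
  unfold nsq
  simp_rw [h1]
  rw [← Finset.sum_filter, Finset.sum_const, nsmul_eq_mul]
  have h2 : (univ.filter fun u => G.Adj v u) = G.neighborFinset v := by
    ext u
    simp
  rw [h2, G.card_neighborFinset_eq_degree]
  have h3 : (G.degree v : ℝ) ≤ R := by exact_mod_cast hdeg v
  calc (G.degree v : ℝ) * (1 / (R : ℝ)) ^ 2 ≤ (R : ℝ) * (1 / (R : ℝ)) ^ 2 := by gcongr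
    _ = 1 / (R : ℝ) := by field_simp

theorem nsq_hk_anti (hdeg : ∀ u, G.degree u ≤ R) (hR : 0 < R) (v : V) (j : ℕ) :
    nsq (hk G R v (j + 1)) ≤ nsq (hk G R v j) := nsq_wk_le G R hdeg hR _

/-- HEAT KERNEL BOUND. -/
theorem heat (hdeg : ∀ u, G.degree u ≤ R) (hR : 0 < R) (N : ℕ) (c : ℝ) (hc : 0 ≤ c)
    (hc2 : c ^ 2 ≤ 4)
    (hexp : ∀ T : Finset V, T.card ≤ N → c * T.card ≤ ∑ u ∈ T, ∑ w ∈ univ \ T, qk G R u w)
    (s : ℝ) (hs : 0 < s) (hN : 4 / s ≤ N) (v : V) (j : ℕ) :
    nsq (hk G R v (j + 1)) ≤ max s ((1 - c ^ 2 / 4) ^ j * (1 / (R : ℝ))) := by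
  induction j with
  | zero =>
    refine le_trans (nsq_hk_one G R hdeg hR v) ?_
    rw [pow_zero, one_mul]
    exact le_max_right _ _
  | succ j ih =>
    rcases le_or_gt (nsq (hk G R v (j + 1))) s with hle | hgt
    · exact le_trans (le_trans (nsq_hk_anti G R hdeg hR v (j + 1)) hle) (le_max_left _ _)
    · have hpos : 0 < nsq (hk G R v (j + 1)) := lt_trans hs hgt
      have h1 := nash (qk G R) (qk_nonneg G R) (qk_symm G R) (qk_row G R hdeg hR) N c hc hexp
        (hk G R v (j + 1)) (hk_nonneg G R v (j + 1)) (hk_sum G R hdeg hR v (j + 1)) hpos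
        (le_trans (div_le_div_of_nonneg_left (by norm_num) hs hgt.le) hN)
      have h2 : nsq (hk G R v (j + 1 + 1))
          = ∑ u, hk G R v (j + 1) u * ∑ w, qk G R u w * hk G R v (j + 1) w :=
        nsq_wk G R hR _
      rw [h2]
      refine le_trans h1 (le_trans ?_ (le_max_right _ _))
      have h3 : nsq (hk G R v (j + 1)) ≤ (1 - c ^ 2 / 4) ^ j * (1 / (R : ℝ)) := by
        rcases le_max_iff.mp ih with h | h
        · exact absurd h (not_le.mpr hgt)
        · exact h
      calc (1 - c ^ 2 / 4) * nsq (hk G R v (j + 1))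
          ≤ (1 - c ^ 2 / 4) * ((1 - c ^ 2 / 4) ^ j * (1 / (R : ℝ))) := by
            apply mul_le_mul_of_nonneg_left h3
            linarith
        _ = (1 - c ^ 2 / 4) ^ (j + 1) * (1 / (R : ℝ)) := by ring

/-- local expansion of pairs gives expansion of the two-step walk. -/
theorem exp_two (hdeg : ∀ u, G.degree u ≤ R) (r : ℕ) (hr : ∀ u, r ≤ G.degree u) (N : ℕ)
    (g : ℝ) (hg : 0 < g) (hrR : (R : ℝ) * (1 + g / 4) ≤ (1 + g) * (r - g / 4 * R))
    (hR : 0 < R)
    (hexp : ∀ T U : Finset V, T.card ≤ N → (U.card : ℝ) ≤ (1 + g) * T.card →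
      g * R * T.card ≤ ∑ y ∈ univ \ U, ((G.neighborFinset y ∩ T).card : ℝ))
    (T : Finset V) (hT : T.card ≤ N) :
    g ^ 2 / 4 * T.card ≤ ∑ u ∈ T, ∑ w ∈ univ \ T, qk G R u w := by
  classical
  have hR' : (0 : ℝ) < R := by exact_mod_cast hR
  -- rewrite the boundary as a sum over middle vertices
  have hq : ∑ u ∈ T, ∑ w ∈ univ \ T, qk G R u w
      = ∑ y, ((G.neighborFinset y ∩ T).card : ℝ) * ((G.neighborFinset y \ T).card : ℝ)
        / (R : ℝ) ^ 2 := by
    unfold qk
    have h1 : ∀ u w, ((G.neighborFinset u ∩ G.neighborFinset w).card : ℝ)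
        = ∑ y, (if u ∈ G.neighborFinset y then (1 : ℝ) else 0)
          * (if w ∈ G.neighborFinset y then (1 : ℝ) else 0) := by
      intro u w
      have h2 : (G.neighborFinset u ∩ G.neighborFinset w)
          = univ.filter fun y => u ∈ G.neighborFinset y ∧ w ∈ G.neighborFinset y := by
        ext y
        simp [G.adj_comm]
      rw [h2, Finset.card_filter]
      push_cast
      refine Finset.sum_congr rfl fun y _ => ?_
      split_ifs <;> simp_all
    simp_rw [h1, Finset.sum_div]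
    have h3 : ∀ u, ∑ w ∈ univ \ T, ∑ y, (if u ∈ G.neighborFinset y then (1 : ℝ) else 0)
          * (if w ∈ G.neighborFinset y then (1 : ℝ) else 0) / (R : ℝ) ^ 2
        = ∑ y, (if u ∈ G.neighborFinset y then (1 : ℝ) else 0)
          * ((G.neighborFinset y \ T).card : ℝ) / (R : ℝ) ^ 2 := by
      intro u
      rw [Finset.sum_comm]
      refine Finset.sum_congr rfl fun y _ => ?_
      rw [← Finset.sum_div, ← Finset.mul_sum]
      congr 2
      rw [Finset.sum_boole]
      congr 2
      ext w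
      simp [and_comm]
    simp_rw [h3]
    rw [Finset.sum_comm]
    refine Finset.sum_congr rfl fun y _ => ?_
    rw [← Finset.sum_div, ← Finset.sum_mul]
    congr 2
    rw [Finset.sum_boole]
    congr 2
    ext u
    simp [and_comm]
  rw [hq]
  set U := univ.filter fun y => ((G.neighborFinset y \ T).card : ℝ) ≤ g / 4 * R with hU
  -- size of `U`
  have hUc : (U.card : ℝ) ≤ (1 + g) * T.card := by
    have hdp : 0 < (r : ℝ) - g / 4 * R := by
      by_contra hcon
      have h1 : (1 + g) * ((r : ℝ) - g / 4 * R) ≤ 0 :=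
        mul_nonpos_of_nonneg_of_nonpos (by linarith) (not_lt.mp hcon)
      have h2 : 0 < (R : ℝ) * (1 + g / 4) := by positivity
      linarith
    have h1 : (U.card : ℝ) * ((r : ℝ) - g / 4 * R) ≤ (R : ℝ) * T.card := by
      calc (U.card : ℝ) * ((r : ℝ) - g / 4 * R)
          = ∑ y ∈ U, ((r : ℝ) - g / 4 * R) := by rw [Finset.sum_const, nsmul_eq_mul]
        _ ≤ ∑ y ∈ U, ((G.neighborFinset y ∩ T).card : ℝ) := by
          refine Finset.sum_le_sum fun y hy => ?_
          rw [hU, mem_filter] at hy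
          have h2 : (G.neighborFinset y ∩ T).card + (G.neighborFinset y \ T).card
              = (G.neighborFinset y).card := by
            rw [add_comm]
            exact card_sdiff_add_card_inter _ _
          have h3 : ((G.neighborFinset y ∩ T).card : ℝ) + ((G.neighborFinset y \ T).card : ℝ)
              = (G.degree y : ℝ) := by
            rw [← G.card_neighborFinset_eq_degree]
            exact_mod_cast h2
          have h4 : (r : ℝ) ≤ G.degree y := by exact_mod_cast hr y
          linarith [hy.2]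
        _ ≤ ∑ y, ((G.neighborFinset y ∩ T).card : ℝ) :=
          Finset.sum_le_sum_of_subset_of_nonneg (subset_univ _) fun _ _ _ => by positivity
        _ = ∑ u ∈ T, (G.degree u : ℝ) := by
          have h5 : ∀ y, ((G.neighborFinset y ∩ T).card : ℝ)
              = ∑ u ∈ T, if y ∈ G.neighborFinset u then (1 : ℝ) else 0 := by
            intro y
            rw [Finset.sum_boole]
            congr 2
            ext u
            simp [G.adj_comm, and_comm]
          simp_rw [h5]
          rw [Finset.sum_comm]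
          refine Finset.sum_congr rfl fun u _ => ?_
          rw [Finset.sum_boole, ← G.card_neighborFinset_eq_degree]
          congr 2
          ext y
          simp
        _ ≤ ∑ _u ∈ T, (R : ℝ) := Finset.sum_le_sum fun u _ => by exact_mod_cast hdeg u
        _ = (R : ℝ) * T.card := by rw [Finset.sum_const, nsmul_eq_mul, mul_comm]
    have h2 : (U.card : ℝ) * ((r : ℝ) - g / 4 * R)
        ≤ (1 + g) * T.card * ((r : ℝ) - g / 4 * R) := by
      refine le_trans h1 ?_
      have h3 : (R : ℝ) ≤ (1 + g) * ((r : ℝ) - g / 4 * R) := by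
        refine le_trans ?_ hrR
        nlinarith
      calc (R : ℝ) * T.card ≤ ((1 + g) * ((r : ℝ) - g / 4 * R)) * T.card := by gcongr
        _ = _ := by ring
    exact le_of_mul_le_mul_right h2 hdp
  have hE := hexp T U hT hUc
  calc g ^ 2 / 4 * T.card = (g / 4 * R) * (g * R * T.card) / (R : ℝ) ^ 2 := by
        field_simp
    _ ≤ (g / 4 * R) * (∑ y ∈ univ \ U, ((G.neighborFinset y ∩ T).card : ℝ)) / (R : ℝ) ^ 2 := by
        gcongr
    _ = ∑ y ∈ univ \ U, ((G.neighborFinset y ∩ T).card : ℝ) * (g / 4 * R) / (R : ℝ) ^ 2 := by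
        rw [Finset.mul_sum, Finset.sum_div]
        refine Finset.sum_congr rfl fun y _ => ?_
        ring
    _ ≤ ∑ y ∈ univ \ U, ((G.neighborFinset y ∩ T).card : ℝ)
          * ((G.neighborFinset y \ T).card : ℝ) / (R : ℝ) ^ 2 := by
        refine Finset.sum_le_sum fun y hy => ?_
        have h1 : ¬ ((G.neighborFinset y \ T).card : ℝ) ≤ g / 4 * R := by
          rw [hU] at hy
          simpa using hy
        have h2 := (not_le.mp h1).le
        gcongr
    _ ≤ _ := Finset.sum_le_sum_of_subset_of_nonneg (subset_univ _) fun _ _ _ => by positivity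

end Pool.Agent.Work.MP_db9399_as.helper6
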