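import Mathlib

/-!
Walk kernels of a regular graph and the variance lemma: for the Cesaro average
`k = (1/J) ∑_{a < j ≤ a + J} (-W)^j δ_v` of the signed walk, `∑_{edges uw} (k u + k w)² ≤ 2 / J`.
-/

namespace Pool.Agent.Work.MP_db9399_as.helper6

open Finset

set_option linter.unusedSectionVars false

variable {V : Type*} [Fintype V] [DecidableEq V] (G : SimpleGraph V) [DecidableRel G.Adj] (D : ℕ)

/-- the signed walk operator `-W`, `W f u = (1/D) ∑_{w ∼ u} f w`. -/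
noncomputable def sw : (V → ℝ) →ₗ[ℝ] (V → ℝ) where
  toFun f u := -((1 / (D : ℝ)) * ∑ w ∈ G.neighborFinset u, f w)
  map_add' f g := by
    funext u
    simp only [Pi.add_apply, Finset.sum_add_distrib]
    ring
  map_smul' c f := by
    funext u
    simp only [Pi.smul_apply, smul_eq_mul, RingHom.id_apply, ← Finset.mul_sum]
    ring

theorem sw_apply (f : V → ℝ) (u : V) :
    sw G D f u = -((1 / (D : ℝ)) * ∑ w ∈ G.neighborFinset u, f w) := rfl

/-- the squared `ℓ²` norm. -/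
def nsq (f : V → ℝ) : ℝ := ∑ u, f u ^ 2

theorem nsq_nonneg (f : V → ℝ) : 0 ≤ nsq f := Finset.sum_nonneg fun _ _ => sq_nonneg _

/-- double counting over adjacent pairs. -/
theorem sum_nbr (f : V → ℝ) (hreg : G.IsRegularOfDegree D) :
    ∑ u, ∑ w ∈ G.neighborFinset u, f w = (D : ℝ) * ∑ w, f w := by
  have h1 : ∀ u, ∑ w ∈ G.neighborFinset u, f w = ∑ w, if G.Adj u w then f w else 0 := by
    intro u
    rw [← Finset.sum_filter]
    apply Finset.sum_congr _ fun _ _ => rfl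
    ext w
    simp
  simp_rw [h1]
  rw [Finset.sum_comm, Finset.mul_sum]
  refine Finset.sum_congr rfl fun w _ => ?_
  rw [← Finset.sum_filter, Finset.sum_const, nsmul_eq_mul]
  congr 1
  have h2 : (univ.filter fun u => G.Adj u w) = G.neighborFinset w := by
    ext u
    simp [G.adj_comm]
  rw [h2, G.card_neighborFinset_eq_degree, hreg w]

theorem nsq_sw (hreg : G.IsRegularOfDegree D) (f : V → ℝ) : nsq (sw G D f) ≤ nsq f := by
  rcases Nat.eq_zero_or_pos D with hD | hD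
  · have : nsq (sw G D f) = 0 := by
      unfold nsq
      refine Finset.sum_eq_zero fun u _ => ?_
      rw [sw_apply]
      simp [hD]
    rw [this]
    exact nsq_nonneg f
  have hD' : (0 : ℝ) < D := by exact_mod_cast hD
  have h1 : ∀ u, (sw G D f u) ^ 2 ≤ (1 / (D : ℝ)) * ∑ w ∈ G.neighborFinset u, f w ^ 2 := by
    intro u
    rw [sw_apply, neg_sq, mul_pow]
    have hcs := sq_sum_le_card_mul_sum_sq (s := G.neighborFinset u) (f := f)
    rw [G.card_neighborFinset_eq_degree, hreg u] at hcs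
    calc (1 / (D : ℝ)) ^ 2 * (∑ w ∈ G.neighborFinset u, f w) ^ 2
        ≤ (1 / (D : ℝ)) ^ 2 * ((D : ℝ) * ∑ w ∈ G.neighborFinset u, f w ^ 2) := by gcongr
      _ = (1 / (D : ℝ)) * ∑ w ∈ G.neighborFinset u, f w ^ 2 := by
        field_simp
  calc nsq (sw G D f) ≤ ∑ u, (1 / (D : ℝ)) * ∑ w ∈ G.neighborFinset u, f w ^ 2 :=
        Finset.sum_le_sum fun u _ => h1 u
    _ = (1 / (D : ℝ)) * ((D : ℝ) * ∑ w, f w ^ 2) := by
        rw [← Finset.mul_sum, sum_nbr G D (fun w => f w ^ 2) hreg]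
    _ = nsq f := by
        unfold nsq
        field_simp

theorem nsq_sw_pow (hreg : G.IsRegularOfDegree D) (f : V → ℝ) (j : ℕ) :
    nsq (((sw G D) ^ j) f) ≤ nsq f := by
  induction j with
  | zero => simp
  | succ j ih =>
    rw [pow_succ']
    exact le_trans (nsq_sw G D hreg _) ih

/-- one step from a point. -/
theorem nsq_sw_single (hD : 0 < D) (hreg : G.IsRegularOfDegree D) (v : V) :
    nsq (sw G D (Pi.single v 1)) ≤ 1 / (D : ℝ) := by
  have hD' : (0 : ℝ) < D := by exact_mod_cast hD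
  have h1 : ∀ u, (sw G D (Pi.single v (1 : ℝ)) u) ^ 2
      = if G.Adj v u then (1 / (D : ℝ)) ^ 2 else 0 := by
    intro u
    rw [sw_apply]
    have h2 : ∑ w ∈ G.neighborFinset u, (Pi.single v (1 : ℝ) : V → ℝ) w
        = if G.Adj v u then 1 else 0 := by
      rw [Finset.sum_congr rfl (fun w _ => Pi.single_apply v (1 : ℝ) w), Finset.sum_ite_eq']
      simp [G.adj_comm]
    rw [h2]
    split_ifs <;> simp
  unfold nsq
  simp_rw [h1]
  rw [← Finset.sum_filter, Finset.sum_const, nsmul_eq_mul]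
  have h2 : (univ.filter fun u => G.Adj v u) = G.neighborFinset v := by
    ext u
    simp
  rw [h2, G.card_neighborFinset_eq_degree, hreg v]
  apply le_of_eq
  field_simp

/-- every power `≥ 1` of the signed walk started at a point has small norm. -/
theorem nsq_pow_single (hD : 0 < D) (hreg : G.IsRegularOfDegree D) (v : V) {j : ℕ} (hj : 1 ≤ j) :
    nsq (((sw G D) ^ j) (Pi.single v 1)) ≤ 1 / (D : ℝ) := by
  obtain ⟨i, rfl⟩ : ∃ i, j = i + 1 := ⟨j - 1, by omega⟩
  rw [pow_succ]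
  exact le_trans (nsq_sw_pow G D hreg _ i) (nsq_sw_single G D hD hreg v)

/-- the Cesaro kernel. -/
noncomputable def ker (a J : ℕ) (v : V) : V → ℝ :=
  (1 / (J : ℝ)) • ∑ j ∈ range J, ((sw G D) ^ (a + j)) (Pi.single v 1)

theorem sqrt_nsq_add (f g : V → ℝ) : Real.sqrt (nsq (f + g)) ≤ Real.sqrt (nsq f) + Real.sqrt (nsq g) := by
  have h := norm_add_le (WithLp.toLp 2 f) (WithLp.toLp 2 g)
  have h3 : ∀ f : V → ℝ, ‖WithLp.toLp 2 f‖ = Real.sqrt (nsq f) := by
    intro f
    rw [EuclideanSpace.norm_eq]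
    simp [nsq]
  rw [← WithLp.toLp_add, h3, h3, h3] at h
  exact h

theorem sqrt_nsq_smul (c : ℝ) (f : V → ℝ) : Real.sqrt (nsq (c • f)) = |c| * Real.sqrt (nsq f) := by
  have h1 : nsq (c • f) = c ^ 2 * nsq f := by
    unfold nsq
    rw [Finset.mul_sum]
    refine Finset.sum_congr rfl fun u _ => ?_
    simp [mul_pow]
  rw [h1, Real.sqrt_mul (sq_nonneg c), Real.sqrt_sq_eq_abs]

theorem sqrt_nsq_sum {ι : Type*} (s : Finset ι) (F : ι → V → ℝ) :
    Real.sqrt (nsq (∑ i ∈ s, F i)) ≤ ∑ i ∈ s, Real.sqrt (nsq (F i)) := by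
  classical
  induction s using Finset.induction_on with
  | empty => simp [nsq]
  | insert i s hi ih =>
    rw [Finset.sum_insert hi, Finset.sum_insert hi]
    exact le_trans (sqrt_nsq_add _ _) (by gcongr)

theorem sqrt_nsq_ker (hD : 0 < D) (hreg : G.IsRegularOfDegree D) {a J : ℕ} (ha : 1 ≤ a)
    (hJ : 0 < J) (v : V) : Real.sqrt (nsq (ker G D a J v)) ≤ Real.sqrt (1 / (D : ℝ)) := by
  have hJ' : (0 : ℝ) < J := by exact_mod_cast hJ
  unfold ker
  rw [sqrt_nsq_smul, abs_of_nonneg (by positivity)]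
  calc (1 / (J : ℝ)) * Real.sqrt (nsq (∑ j ∈ range J, ((sw G D) ^ (a + j)) (Pi.single v 1)))
      ≤ (1 / (J : ℝ)) * ∑ j ∈ range J, Real.sqrt (nsq (((sw G D) ^ (a + j)) (Pi.single v 1))) := by
        gcongr
        exact sqrt_nsq_sum _ _
    _ ≤ (1 / (J : ℝ)) * ∑ _j ∈ range J, Real.sqrt (1 / (D : ℝ)) := by
        gcongr with j _
        exact nsq_pow_single G D hD hreg v (by omega)
    _ = Real.sqrt (1 / (D : ℝ)) := by
        rw [Finset.sum_const, card_range, nsmul_eq_mul]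
        field_simp

/-- telescoping. -/
theorem ker_sub (a J : ℕ) (v : V) :
    ker G D a J v - sw G D (ker G D a J v)
      = (1 / (J : ℝ)) • (((sw G D) ^ a) (Pi.single v 1) - ((sw G D) ^ (a + J)) (Pi.single v 1)) := by
  unfold ker
  rw [map_smul, ← smul_sub, map_sum]
  congr 1
  induction J with
  | zero => simp
  | succ J ih =>
    rw [Finset.sum_range_succ, Finset.sum_range_succ, add_sub_add_comm, ih,
      show a + (J + 1) = (a + J) + 1 by ring, pow_succ']
    change _ + (_ - sw G D (((sw G D) ^ (a + J)) _)) = _ - sw G D (((sw G D) ^ (a + J)) _)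
    abel

theorem sqrt_nsq_ker_sub (hD : 0 < D) (hreg : G.IsRegularOfDegree D) {a J : ℕ} (ha : 1 ≤ a)
    (v : V) : Real.sqrt (nsq (ker G D a J v - sw G D (ker G D a J v)))
      ≤ (2 / (J : ℝ)) * Real.sqrt (1 / (D : ℝ)) := by
  rw [ker_sub, sqrt_nsq_smul, abs_of_nonneg (by positivity)]
  have h1 : Real.sqrt (nsq (((sw G D) ^ a) (Pi.single v 1) - ((sw G D) ^ (a + J)) (Pi.single v 1)))
      ≤ 2 * Real.sqrt (1 / (D : ℝ)) := by
    rw [sub_eq_add_neg]
    refine le_trans (sqrt_nsq_add _ _) ?_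
    have h2 : nsq (-((sw G D) ^ (a + J)) (Pi.single v 1)) = nsq (((sw G D) ^ (a + J)) (Pi.single v 1)) := by
      unfold nsq
      simp
    rw [h2, two_mul]
    gcongr
    · exact nsq_pow_single G D hD hreg v ha
    · exact nsq_pow_single G D hD hreg v (by omega)
  calc (1 / (J : ℝ)) * Real.sqrt (nsq (((sw G D) ^ a) (Pi.single v 1)
        - ((sw G D) ^ (a + J)) (Pi.single v 1)))
      ≤ (1 / (J : ℝ)) * (2 * Real.sqrt (1 / (D : ℝ))) := by gcongr
    _ = _ := by ring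

theorem inner_le (f g : V → ℝ) : ∑ u, f u * g u ≤ Real.sqrt (nsq f) * Real.sqrt (nsq g) :=
  Real.sum_mul_le_sqrt_mul_sqrt _ _ _

/-- the quadratic form over ordered adjacent pairs. -/
theorem sum_pairs (hD : 0 < D) (hreg : G.IsRegularOfDegree D) (k : V → ℝ) :
    ∑ u, ∑ w ∈ G.neighborFinset u, (k u + k w) ^ 2
      = 2 * (D : ℝ) * ∑ u, k u * (k - sw G D k) u := by
  have hD' : (0 : ℝ) < D := by exact_mod_cast hD
  have h1 : ∀ u, ∑ w ∈ G.neighborFinset u, (k u + k w) ^ 2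
      = (D : ℝ) * k u ^ 2 + ∑ w ∈ G.neighborFinset u, k w ^ 2
        + 2 * (D : ℝ) * (k u * (-(sw G D k u))) := by
    intro u
    have h2 : ∀ w, (k u + k w) ^ 2 = k u ^ 2 + k w ^ 2 + 2 * k u * k w := fun w => by ring
    simp_rw [h2]
    rw [Finset.sum_add_distrib, Finset.sum_add_distrib, Finset.sum_const,
      G.card_neighborFinset_eq_degree, hreg u, nsmul_eq_mul, ← Finset.mul_sum, sw_apply]
    field_simp
  simp_rw [h1]
  rw [Finset.sum_add_distrib, Finset.sum_add_distrib, sum_nbr G D (fun w => k w ^ 2) hreg,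
    ← Finset.mul_sum, ← Finset.mul_sum]
  have h3 : ∀ u, k u * (k - sw G D k) u = k u ^ 2 + k u * (-(sw G D k u)) := by
    intro u
    rw [Pi.sub_apply]
    ring
  simp_rw [h3]
  rw [Finset.sum_add_distrib]
  ring

/-- VARIANCE LEMMA (ordered pairs, hence the constant `4`). -/
theorem var_pairs (hD : 0 < D) (hreg : G.IsRegularOfDegree D) {a J : ℕ} (ha : 1 ≤ a)
    (hJ : 0 < J) (v : V) :
    ∑ u, ∑ w ∈ G.neighborFinset u, (ker G D a J v u + ker G D a J v w) ^ 2 ≤ 4 / (J : ℝ) := by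
  have hD' : (0 : ℝ) < D := by exact_mod_cast hD
  have hJ' : (0 : ℝ) < J := by exact_mod_cast hJ
  rw [sum_pairs G D hD hreg]
  have h1 := inner_le (ker G D a J v) (ker G D a J v - sw G D (ker G D a J v))
  have h2 : Real.sqrt (nsq (ker G D a J v)) * Real.sqrt (nsq (ker G D a J v
      - sw G D (ker G D a J v))) ≤ Real.sqrt (1 / (D : ℝ)) * ((2 / (J : ℝ)) * Real.sqrt (1 / (D : ℝ))) :=
    mul_le_mul (sqrt_nsq_ker G D hD hreg ha hJ v) (sqrt_nsq_ker_sub G D hD hreg ha v)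
      (Real.sqrt_nonneg _) (Real.sqrt_nonneg _)
  have h3 : Real.sqrt (1 / (D : ℝ)) * Real.sqrt (1 / (D : ℝ)) = 1 / (D : ℝ) :=
    Real.mul_self_sqrt (by positivity)
  calc 2 * (D : ℝ) * ∑ u, ker G D a J v u * (ker G D a J v - sw G D (ker G D a J v)) u
      ≤ 2 * (D : ℝ) * (Real.sqrt (1 / (D : ℝ)) * ((2 / (J : ℝ)) * Real.sqrt (1 / (D : ℝ)))) := by
        gcongr
        exact le_trans h1 h2
    _ = 2 * (D : ℝ) * (2 / (J : ℝ)) * (Real.sqrt (1 / (D : ℝ)) * Real.sqrt (1 / (D : ℝ))) := by ring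
    _ = 4 / (J : ℝ) := by
        rw [h3]
        field_simp
        norm_num

end Pool.Agent.Work.MP_db9399_as.helper6
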